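import Mathlib
import Pool.Agent.H305R2.Smooth
import Pool.Agent.Helper923.HMertens

set_option autoImplicit false

/-!
# The third theorem of Mertens with an error term
-/

namespace Pool.Agent.TH888.R

open Finset Filter Topology
open Pool.Agent.H305R2 (VV VV_tendsto VV_nonneg)

lemma VV_succ (N : ℕ) : VV (N + 1) = VV N * (if (N + 1).Prime then (1 - ((N + 1 : ℕ) : ℝ)⁻¹)⁻¹ else 1) := by
  unfold VV
  rw [Finset.prod_filter, Finset.prod_filter, ← Finset.insert_Icc_right_eq_Icc_add_one (by omega),
    Finset.prod_insert (by simp)]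
  ring

lemma VV_pos (N : ℕ) : 0 < VV N := by
  unfold VV
  refine Finset.prod_pos fun r hr => ?_
  rw [mem_filter] at hr
  have h2 : (2 : ℝ) ≤ r := by exact_mod_cast hr.2.two_le
  have h3 : (r : ℝ)⁻¹ ≤ 1 / 2 := by
    rw [inv_eq_one_div]
    exact one_div_le_one_div_of_le (by norm_num) h2
  have : 0 < 1 - (r : ℝ)⁻¹ := by linarith
  positivity

lemma log_factor {r : ℕ} (hr : 2 ≤ r) : 1 / (r : ℝ) ≤ Real.log ((1 - (r : ℝ)⁻¹)⁻¹) ∧
    Real.log ((1 - (r : ℝ)⁻¹)⁻¹) ≤ 1 / (r : ℝ) + 2 * (1 / ((r : ℝ) - 1) - 1 / r) := by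
  have h2 : (2 : ℝ) ≤ r := by exact_mod_cast hr
  have hr0 : (0 : ℝ) < r := by linarith
  have hr1 : 0 < (r : ℝ) - 1 := by linarith
  have h3 : (1 - (r : ℝ)⁻¹) = (r - 1) / r := by field_simp
  have hpos : 0 < (1 - (r : ℝ)⁻¹) := by rw [h3]; positivity
  rw [Real.log_inv]
  constructor
  · have h4 := Real.log_le_sub_one_of_pos hpos
    have : (r : ℝ)⁻¹ = 1 / r := inv_eq_one_div _
    linarith
  · have h4 := Real.one_sub_inv_le_log_of_pos hpos
    have h5 : (1 - (r : ℝ)⁻¹)⁻¹ = 1 + 1 / (r - 1) := by rw [h3]; field_simp; ring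
    have h6 : 0 ≤ 1 / ((r : ℝ) - 1) - 1 / r := by
      have := one_div_le_one_div_of_le hr1 (show (r : ℝ) - 1 ≤ r by linarith)
      linarith
    linarith

/-- the quotient of two products -/
lemma VV_quot : ∃ C : ℝ, 0 ≤ C ∧ ∀ a b : ℕ, 2 ≤ a → a ≤ b →
    |Real.log (VV b) - Real.log (VV a) - (Real.log (Real.log b) - Real.log (Real.log a))| ≤
      C / Real.log a := by
  obtain ⟨C, hC, h⟩ := Pool.Agent.Helper923.HMertens.mertens_ratio
  refine ⟨C + 4, by positivity, fun a b ha hab => ?_⟩
  have hsum : Real.log (VV b) - Real.log (VV a) =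
      ∑ r ∈ (Ioc a b).filter Nat.Prime, Real.log ((1 - (r : ℝ)⁻¹)⁻¹) := by
    induction b, hab using Nat.le_induction with
    | base => simp
    | succ b hab ih =>
      rw [Finset.sum_filter, Finset.sum_Ioc_succ_top hab, ← Finset.sum_filter, ← ih, VV_succ,
        Real.log_mul (VV_pos b).ne']
      · split_ifs
        · ring
        · rw [Real.log_one]; ring
      · split_ifs with h1
        · have h2 : (2 : ℝ) ≤ ((b + 1 : ℕ) : ℝ) := by exact_mod_cast h1.two_le
          have h3 : (((b + 1 : ℕ) : ℝ))⁻¹ ≤ 1 / 2 := by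
            rw [inv_eq_one_div]
            exact one_div_le_one_div_of_le (by norm_num) h2
          have : 0 < 1 - (((b + 1 : ℕ) : ℝ))⁻¹ := by linarith
          positivity
        · norm_num
  have ha2 : (2 : ℝ) ≤ a := by exact_mod_cast ha
  have hb2 : (2 : ℝ) ≤ b := by exact_mod_cast ha.trans hab
  have hla : 0 < Real.log a := Real.log_pos (by linarith)
  have hlb : 0 < Real.log b := Real.log_pos (by linarith)
  have h1 := h a b ha hab
  rw [Real.log_div hlb.ne' hla.ne'] at h1
  have hlow : ∑ p ∈ (Ioc a b).filter Nat.Prime, (1 : ℝ) / p ≤ Real.log (VV b) - Real.log (VV a) := by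
    rw [hsum]
    refine Finset.sum_le_sum fun r hr => ?_
    rw [mem_filter, mem_Ioc] at hr
    exact (log_factor (by omega)).1
  have htel : ∀ b : ℕ, a ≤ b → ∑ r ∈ Ioc a b, (1 / ((r : ℝ) - 1) - 1 / r) = 1 / (a : ℝ) - 1 / b := by
    intro b hab
    induction b, hab using Nat.le_induction with
    | base => simp
    | succ b hab ih =>
      rw [Finset.sum_Ioc_succ_top hab, ih]
      push_cast
      ring
  have hup : Real.log (VV b) - Real.log (VV a) ≤
      ∑ p ∈ (Ioc a b).filter Nat.Prime, (1 : ℝ) / p + 2 * (1 / (a : ℝ)) := by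
    rw [hsum]
    calc _ ≤ ∑ r ∈ (Ioc a b).filter Nat.Prime, (1 / (r : ℝ) + 2 * (1 / ((r : ℝ) - 1) - 1 / r)) := by
          refine Finset.sum_le_sum fun r hr => ?_
          rw [mem_filter, mem_Ioc] at hr
          exact (log_factor (by omega)).2
      _ = ∑ r ∈ (Ioc a b).filter Nat.Prime, (1 : ℝ) / r +
          2 * ∑ r ∈ (Ioc a b).filter Nat.Prime, (1 / ((r : ℝ) - 1) - 1 / r) := by
          rw [Finset.sum_add_distrib, Finset.mul_sum]
      _ ≤ ∑ r ∈ (Ioc a b).filter Nat.Prime, (1 : ℝ) / r +
          2 * ∑ r ∈ Ioc a b, (1 / ((r : ℝ) - 1) - 1 / r) := by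
          have : ∑ r ∈ (Ioc a b).filter Nat.Prime, (1 / ((r : ℝ) - 1) - 1 / r) ≤
              ∑ r ∈ Ioc a b, (1 / ((r : ℝ) - 1) - 1 / r) := by
            refine Finset.sum_le_sum_of_subset_of_nonneg (filter_subset _ _) fun r hr _ => ?_
            rw [mem_Ioc] at hr
            have hr2 : (2 : ℝ) < r := by exact_mod_cast (by omega : 2 < r)
            have := one_div_le_one_div_of_le (show 0 < (r : ℝ) - 1 by linarith)
              (show (r : ℝ) - 1 ≤ r by linarith)
            linarith
          linarith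
      _ ≤ _ := by
          rw [htel b hab]
          have : 0 ≤ 1 / (b : ℝ) := by positivity
          linarith
  have hinv : 1 / (a : ℝ) ≤ 1 / Real.log a := by
    refine one_div_le_one_div_of_le hla ?_
    have := Real.log_le_sub_one_of_pos (show (0 : ℝ) < a by linarith)
    linarith
  have h4 : (C + 4) / Real.log a = C / Real.log a + 4 * (1 / Real.log a) := by ring
  have h5 : 0 < 1 / Real.log a := by positivity
  obtain ⟨h6, h7⟩ := abs_le.1 h1
  rw [h4, abs_le]
  constructor <;> linarith

/-- **Mertens' third theorem with error term.** -/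
theorem VV_rate : ∃ C : ℝ, 0 < C ∧ ∀ a : ℕ, 2 ≤ a →
    |VV a - Real.exp Real.eulerMascheroniConstant * Real.log a| ≤ C := by
  obtain ⟨C, hC, h⟩ := VV_quot
  set G := Real.exp Real.eulerMascheroniConstant with hG
  have hG0 : 0 < G := Real.exp_pos _
  -- bounded logarithmic error
  have hlim : ∀ a : ℕ, 2 ≤ a →
      |Real.log (VV a) - Real.log (Real.log a) - Real.eulerMascheroniConstant| ≤ C / Real.log a := by
    intro a ha
    have h1 : Tendsto (fun b : ℕ => Real.log (VV b / Real.log b)) atTop (𝓝 Real.eulerMascheroniConstant) := by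
      have := (Real.continuousAt_log hG0.ne').tendsto.comp VV_tendsto
      rw [hG, Real.log_exp] at this
      exact this
    have h2 : Tendsto (fun b : ℕ => |Real.log (VV b / Real.log b) -
        (Real.log (VV a) - Real.log (Real.log a))|) atTop
        (𝓝 |Real.eulerMascheroniConstant - (Real.log (VV a) - Real.log (Real.log a))|) :=
      (h1.sub_const _).abs
    have h3 : |Real.eulerMascheroniConstant - (Real.log (VV a) - Real.log (Real.log a))| ≤
        C / Real.log a := by
      refine le_of_tendsto h2 ?_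
      filter_upwards [eventually_ge_atTop a] with b hb
      have h4 := h a b ha hb
      have hlb : 0 < Real.log b := Real.log_pos (by exact_mod_cast (by omega : 1 < b))
      rw [Real.log_div (VV_pos b).ne' hlb.ne']
      have e : Real.log (VV b) - Real.log (Real.log b) - (Real.log (VV a) - Real.log (Real.log a)) =
          Real.log (VV b) - Real.log (VV a) - (Real.log (Real.log b) - Real.log (Real.log a)) := by ring
      rw [e]
      exact h4
    rw [abs_sub_comm] at h3
    exact h3
  have hl2 : (0 : ℝ) < Real.log 2 := Real.log_pos (by norm_num)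
  set D := C / Real.log 2 with hD
  have hD0 : 0 ≤ D := by positivity
  refine ⟨G * (C * Real.exp D + 1), by positivity, fun a ha => ?_⟩
  have ha2 : (2 : ℝ) ≤ a := by exact_mod_cast ha
  have hla : 0 < Real.log a := Real.log_pos (by linarith)
  have h2a : Real.log 2 ≤ Real.log a := Real.log_le_log (by norm_num) ha2
  set x := Real.log (VV a) - Real.log (Real.log a) - Real.eulerMascheroniConstant with hx
  have hxl := hlim a ha
  rw [← hx] at hxl
  have hxD : |x| ≤ D := hxl.trans (by rw [hD]; gcongr)
  have hV : VV a = G * Real.log a * Real.exp x := by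
    have : Real.exp x = VV a / Real.log a / G := by
      rw [hx, Real.exp_sub, Real.exp_sub, Real.exp_log (VV_pos a), Real.exp_log hla]
    rw [this]
    field_simp
  have hexp : |Real.exp x - 1| ≤ |x| * Real.exp D := by
    rcases le_total 0 x with h0 | h0
    · rw [abs_of_nonneg (by linarith [Real.add_one_le_exp x]), abs_of_nonneg h0]
      have h1 := Real.add_one_le_exp (-x)
      have h2 : Real.exp x * Real.exp (-x) = 1 := by rw [← Real.exp_add]; simp
      have h3 : Real.exp x ≤ Real.exp D := Real.exp_le_exp.2 (by rw [abs_of_nonneg h0] at hxD; exact hxD)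
      have h4 : 0 < Real.exp x := Real.exp_pos x
      have h5 : Real.exp x - 1 ≤ x * Real.exp x := by nlinarith
      nlinarith
    · rw [abs_of_nonpos (by
        have := Real.exp_le_exp.2 h0
        rw [Real.exp_zero] at this
        linarith), abs_of_nonpos h0]
      have h1 := Real.add_one_le_exp x
      have h2 : 1 ≤ Real.exp D := Real.one_le_exp hD0
      nlinarith
  have e : VV a - G * Real.log a = G * Real.log a * (Real.exp x - 1) := by rw [hV]; ring
  rw [e, abs_mul, abs_of_pos (by positivity)]
  calc G * Real.log a * |Real.exp x - 1| ≤ G * Real.log a * (C / Real.log a * Real.exp D) := by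
        refine mul_le_mul_of_nonneg_left (hexp.trans ?_) (by positivity)
        exact mul_le_mul_of_nonneg_right hxl (Real.exp_pos _).le
    _ = G * (C * Real.exp D) := by field_simp
    _ ≤ _ := by nlinarith

end Pool.Agent.TH888.R
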