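import Mathlib
import Pool.Agent.H305R2.Recip
import Pool.Agent.H442R2.EHI.PntErr

set_option autoImplicit false

/-!
# The sum of the reciprocals of the primes in `(z, ez]` with an error term
-/

namespace Pool.Agent.TH888.R

open Finset Filter Topology
open Pool.Agent.H305R2 (RR pr pr_nonneg RR_nonneg)

/-- the error of the Chebyshev function -/
noncomputable def EE (n : ℕ) : ℝ := Chebyshev.theta (n : ℝ) - n

lemma theta_succ (n : ℕ) : Chebyshev.theta ((n + 1 : ℕ) : ℝ) =
    Chebyshev.theta (n : ℝ) + Real.log ((n + 1 : ℕ) : ℝ) * pr (n + 1) := by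
  unfold Chebyshev.theta pr
  rw [Nat.floor_natCast, Nat.floor_natCast, sum_filter, sum_filter,
    Finset.sum_Ioc_succ_top (Nat.zero_le n)]
  congr 1
  split_ifs <;> simp

lemma abel_RR (A : ℕ) (hA : 1 ≤ A) (B : ℕ) (hAB : A ≤ B) :
    ∑ k ∈ Ioc A B, Real.log k * pr k / k = (∑ k ∈ Ioc A B, (k : ℝ)⁻¹) +
      (EE B / B - EE A / A + ∑ k ∈ Ico A B, EE k * ((k : ℝ)⁻¹ - ((k : ℝ) + 1)⁻¹)) := by
  induction B, hAB using Nat.le_induction with
  | base => simp
  | succ B hAB ih =>
    rw [Finset.sum_Ioc_succ_top hAB, Finset.sum_Ioc_succ_top hAB, Finset.sum_Ico_succ_top hAB, ih]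
    have hB0 : (0 : ℝ) < B := by exact_mod_cast (by omega : 0 < B)
    have h1 : Real.log ((B + 1 : ℕ) : ℝ) * pr (B + 1) = 1 + (EE (B + 1) - EE B) := by
      unfold EE
      rw [theta_succ]
      push_cast
      ring
    rw [h1]
    push_cast
    field_simp
    ring

/-- **The prime number theorem for the reciprocals of the primes in `(z, ez]`, with error term.** -/
theorem RR_rate : ∃ C : ℝ, 0 < C ∧ ∀ z : ℝ, 3 ≤ z → |RR z * Real.log z - 1| ≤ C / Real.log z := by
  obtain ⟨C, hC, h⟩ := Pool.Agent.H442R2.EHI.PntErrAux.thetaU 1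
  refine ⟨20 * C + 20, by positivity, fun z hz => ?_⟩
  have hz0 : 0 < z := by linarith
  have he := Real.exp_one_gt_d9
  have he2 := Real.exp_one_lt_d9
  have hl1 : 1 < Real.log z := by
    rw [Real.lt_log_iff_exp_lt hz0]
    linarith
  have hl0 : 0 < Real.log z := by linarith
  set A := ⌊z⌋₊ with hA
  set B := ⌊Real.exp 1 * z⌋₊ with hB
  have hA3 : 3 ≤ A := by rw [hA]; exact Nat.le_floor (by exact_mod_cast hz)
  have hAz : (A : ℝ) ≤ z := Nat.floor_le hz0.le
  have hzA : z < A + 1 := Nat.lt_floor_add_one z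
  have hAB : A ≤ B := Nat.floor_mono (by nlinarith)
  have hBz : (B : ℝ) ≤ Real.exp 1 * z := Nat.floor_le (by positivity)
  have hzB : Real.exp 1 * z < B + 1 := Nat.lt_floor_add_one _
  have hAr : (3 : ℝ) ≤ A := by exact_mod_cast hA3
  have hA0 : (0 : ℝ) < A := by linarith
  have hBr : (A : ℝ) ≤ B := by exact_mod_cast hAB
  have hB0 : (0 : ℝ) < B := by linarith
  -- the logarithm of `A`
  have hlA : Real.log z / 2 ≤ Real.log A := by
    have h1 : z ≤ A ^ 2 := by nlinarith
    have h2 := Real.log_le_log hz0 h1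
    rw [Real.log_pow] at h2
    push_cast at h2
    linarith
  have hlA0 : 0 < Real.log A := by linarith
  -- error terms
  have hE : ∀ k : ℕ, A ≤ k → |EE k| ≤ 2 * C / Real.log z * k := by
    intro k hk
    have h1 := h k (by omega)
    rw [pow_one] at h1
    have hk0 : (0 : ℝ) < k := by exact_mod_cast (by omega : 0 < k)
    have h2 : Real.log A ≤ Real.log k := Real.log_le_log hA0 (by exact_mod_cast hk)
    refine h1.trans ?_
    calc C * (k / Real.log k) ≤ C * (k / (Real.log z / 2)) := by
          gcongr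
          linarith
      _ = _ := by field_simp
  -- harmonic sum
  have hstep : ∀ k : ℕ, 1 ≤ k → (k : ℝ)⁻¹ - ((k : ℝ) + 1)⁻¹ = 1 / ((k : ℝ) * (k + 1)) := by
    intro k hk
    have hk0 : (0 : ℝ) < k := by exact_mod_cast hk
    field_simp
    ring
  have hup : ∀ N : ℕ, A ≤ N → ∑ k ∈ Ioc A N, (k : ℝ)⁻¹ ≤ Real.log (N / A) := by
    intro N hN
    induction N, hN using Nat.le_induction with
    | base => simp [div_self hA0.ne']
    | succ N hN ih =>
      rw [Finset.sum_Ioc_succ_top hN]
      have hN0 : (0 : ℝ) < N := by exact_mod_cast (by omega : 0 < N)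
      have h1 := Real.one_sub_inv_le_log_of_pos (show (0 : ℝ) < ((N + 1 : ℕ) : ℝ) / N by positivity)
      have h2 : 1 - (((N + 1 : ℕ) : ℝ) / N)⁻¹ = (((N + 1 : ℕ) : ℝ))⁻¹ := by
        push_cast
        field_simp
        ring
      have h3 : Real.log (((N + 1 : ℕ) : ℝ) / A) = Real.log (((N + 1 : ℕ) : ℝ) / N) + Real.log (N / A) := by
        rw [← Real.log_mul (by positivity) (by positivity)]
        congr 1
        field_simp
      rw [h3]
      linarith
  have hlow : ∀ N : ℕ, A ≤ N → Real.log (((N : ℝ) + 1) / (A + 1)) ≤ ∑ k ∈ Ioc A N, (k : ℝ)⁻¹ := by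
    intro N hN
    induction N, hN using Nat.le_induction with
    | base => simp [div_self (show (A : ℝ) + 1 ≠ 0 by positivity)]
    | succ N hN ih =>
      rw [Finset.sum_Ioc_succ_top hN]
      have hN0 : (0 : ℝ) < N := by exact_mod_cast (by omega : 0 < N)
      have h1 := Real.log_le_sub_one_of_pos (show (0 : ℝ) < ((((N + 1 : ℕ) : ℝ) + 1)) / (N + 1) by positivity)
      have h2 : ((((N + 1 : ℕ) : ℝ) + 1)) / (N + 1) - 1 = (((N + 1 : ℕ) : ℝ))⁻¹ := by
        push_cast
        field_simp
        ring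
      have h3 : Real.log ((((N + 1 : ℕ) : ℝ) + 1) / (A + 1)) =
          Real.log ((((N + 1 : ℕ) : ℝ) + 1) / (N + 1)) + Real.log (((N : ℝ) + 1) / (A + 1)) := by
        rw [← Real.log_mul (by positivity) (by positivity)]
        congr 1
        field_simp
      rw [h3]
      linarith
  have hz2 : 1 / z ≤ 1 / Real.log z := by
    refine one_div_le_one_div_of_le hl0 ?_
    have := Real.log_le_sub_one_of_pos hz0
    linarith
  have hH1 : ∑ k ∈ Ioc A B, (k : ℝ)⁻¹ ≤ 1 + 2 / Real.log z := by
    refine (hup B hAB).trans ?_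
    have h1 : (B : ℝ) / A ≤ Real.exp 1 * (z / (z - 1)) := by
      rw [div_le_iff₀ hA0]
      have hz1 : 0 < z - 1 := by linarith
      have h2 : z ≤ z / (z - 1) * A := by
        rw [div_mul_eq_mul_div, le_div_iff₀ hz1]
        nlinarith
      calc (B : ℝ) ≤ Real.exp 1 * z := hBz
        _ ≤ Real.exp 1 * (z / (z - 1) * A) := by gcongr
        _ = _ := by ring
    have hz1 : 0 < z - 1 := by linarith
    have h2 := Real.log_le_log (by positivity) h1
    rw [Real.log_mul (Real.exp_pos 1).ne' (by positivity), Real.log_exp] at h2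
    have h3 := Real.log_le_sub_one_of_pos (show 0 < z / (z - 1) by positivity)
    have h4 : z / (z - 1) - 1 = 1 / (z - 1) := by field_simp; ring
    have h5 : 1 / (z - 1) ≤ 2 * (1 / z) := by
      rw [mul_one_div, div_le_div_iff₀ hz1 hz0]
      linarith
    have h6 : 2 / Real.log z = 2 * (1 / Real.log z) := by ring
    rw [h6]
    linarith
  have hH2 : 1 - 1 / Real.log z ≤ ∑ k ∈ Ioc A B, (k : ℝ)⁻¹ := by
    refine le_trans ?_ (hlow B hAB)
    have h1 : Real.exp 1 * (z / (z + 1)) ≤ ((B : ℝ) + 1) / (A + 1) := by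
      rw [le_div_iff₀ (by positivity)]
      calc Real.exp 1 * (z / (z + 1)) * (A + 1) ≤ Real.exp 1 * (z / (z + 1)) * (z + 1) := by gcongr
        _ = Real.exp 1 * z := by field_simp
        _ ≤ _ := hzB.le
    have h2 := Real.log_le_log (by positivity) h1
    rw [Real.log_mul (Real.exp_pos 1).ne' (by positivity), Real.log_exp] at h2
    have h3 := Real.one_sub_inv_le_log_of_pos (show 0 < z / (z + 1) by positivity)
    have h4 : 1 - (z / (z + 1))⁻¹ = - (1 / z) := by field_simp; ring
    linarith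
  -- the logarithmic sum
  set S := ∑ k ∈ Ioc A B, Real.log k * pr k / (k : ℝ) with hS
  have hSerr : |S - ∑ k ∈ Ioc A B, (k : ℝ)⁻¹| ≤ 10 * C / Real.log z := by
    rw [hS, abel_RR A (by omega) B hAB, add_sub_cancel_left]
    have e1 : |EE B / B| ≤ 2 * C / Real.log z := by
      rw [abs_div, abs_of_pos hB0, div_le_iff₀ hB0]
      exact hE B hAB
    have e2 : |EE A / A| ≤ 2 * C / Real.log z := by
      rw [abs_div, abs_of_pos hA0, div_le_iff₀ hA0]
      exact hE A le_rfl
    have e3 : |∑ k ∈ Ico A B, EE k * ((k : ℝ)⁻¹ - ((k : ℝ) + 1)⁻¹)| ≤ 2 * C / Real.log z * 3 := by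
      refine (Finset.abs_sum_le_sum_abs _ _).trans ?_
      calc ∑ k ∈ Ico A B, |EE k * ((k : ℝ)⁻¹ - ((k : ℝ) + 1)⁻¹)| ≤
            ∑ k ∈ Ico A B, 2 * C / Real.log z * (((k + 1 : ℕ) : ℝ))⁻¹ := by
            refine Finset.sum_le_sum fun k hk => ?_
            rw [mem_Ico] at hk
            have hk0 : (0 : ℝ) < k := by exact_mod_cast (by omega : 0 < k)
            rw [hstep k (by omega), abs_mul, abs_of_pos (show 0 < 1 / ((k : ℝ) * (k + 1)) by positivity)]
            calc |EE k| * (1 / ((k : ℝ) * (k + 1))) ≤ (2 * C / Real.log z * k) * (1 / ((k : ℝ) * (k + 1))) := by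
                  gcongr
                  exact hE k hk.1
              _ = _ := by push_cast; field_simp
        _ = 2 * C / Real.log z * ∑ k ∈ Ioc A B, (k : ℝ)⁻¹ := by
            rw [← Finset.mul_sum]
            congr 1
            rw [Finset.sum_Ico_add' (fun j : ℕ => ((j : ℝ))⁻¹) A B 1]
            congr 1
            ext k
            simp only [mem_Ico, mem_Ioc]
            omega
        _ ≤ 2 * C / Real.log z * 3 := by
            gcongr
            refine hH1.trans ?_
            have : 2 / Real.log z ≤ 2 := by rw [div_le_iff₀ hl0]; linarith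
            linarith
    have h5 := abs_add_le (EE B / B - EE A / A) (∑ k ∈ Ico A B, EE k * ((k : ℝ)⁻¹ - ((k : ℝ) + 1)⁻¹))
    have h6 := abs_sub (EE B / B) (EE A / A)
    have h7 : 10 * C / Real.log z = 2 * C / Real.log z + 2 * C / Real.log z + 2 * C / Real.log z * 3 := by
      ring
    rw [h7]
    linarith
  have hS1 : |S - 1| ≤ (10 * C + 2) / Real.log z := by
    have h1 := abs_le.1 hSerr
    have h2 : (10 * C + 2) / Real.log z = 10 * C / Real.log z + 2 / Real.log z := by ring
    have h3 : 1 / Real.log z ≤ 2 / Real.log z := by gcongr; norm_num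
    rw [h2, abs_le]
    constructor <;> linarith [h1.1, h1.2]
  -- comparison
  have hcmp1 : RR z * Real.log z ≤ S := by
    unfold RR
    rw [Finset.sum_mul, hS]
    refine Finset.sum_le_sum fun k hk => ?_
    rw [mem_Ioc] at hk
    have hk0 : (0 : ℝ) < k := by exact_mod_cast (by omega : 0 < k)
    have hzk : z ≤ k := by
      have : ((A + 1 : ℕ) : ℝ) ≤ k := by exact_mod_cast hk.1
      push_cast at this
      linarith
    have h1 := Real.log_le_log hz0 hzk
    have h2 := pr_nonneg k
    calc (k : ℝ)⁻¹ * pr k * Real.log z ≤ (k : ℝ)⁻¹ * pr k * Real.log k := by gcongr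
      _ = _ := by ring
  have hcmp2 : S ≤ RR z * (Real.log z + 1) := by
    unfold RR
    rw [Finset.sum_mul, hS]
    refine Finset.sum_le_sum fun k hk => ?_
    rw [mem_Ioc] at hk
    have hk0 : (0 : ℝ) < k := by exact_mod_cast (by omega : 0 < k)
    have hkz : (k : ℝ) ≤ Real.exp 1 * z := by
      have : (k : ℝ) ≤ B := by exact_mod_cast hk.2
      linarith
    have h1 := Real.log_le_log hk0 hkz
    rw [Real.log_mul (Real.exp_pos 1).ne' hz0.ne', Real.log_exp] at h1
    have h2 := pr_nonneg k
    calc Real.log k * pr k / k = (k : ℝ)⁻¹ * pr k * Real.log k := by ring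
      _ ≤ (k : ℝ)⁻¹ * pr k * (Real.log z + 1) := by
          gcongr
          linarith
  have hRR0 := RR_nonneg z
  obtain ⟨s1, s2⟩ := abs_le.1 hS1
  have hRRle : RR z ≤ (10 * C + 3) / Real.log z := by
    rw [le_div_iff₀ hl0]
    have : (10 * C + 2) / Real.log z ≤ 10 * C + 2 := by
      rw [div_le_iff₀ hl0]
      nlinarith
    linarith
  have h20 : (20 * C + 20) / Real.log z = (10 * C + 2) / Real.log z + (10 * C + 3) / Real.log z +
      15 / Real.log z := by ring
  have h15 : 0 ≤ 15 / Real.log z := by positivity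
  have h13 : 0 ≤ (10 * C + 3) / Real.log z := by positivity
  rw [h20, abs_le]
  constructor <;> linarith

end Pool.Agent.TH888.R
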