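import Mathlib
import Pool.Agent.TH888.R.RR
import Pool.Agent.TH888.R.VV
import Pool.Agent.H305R2.Mean
import Pool.Agent.W66.SC

set_option autoImplicit false

/-!
# The local mean with an error term
-/

namespace Pool.Agent.TH888.R

open Finset Filter Topology MeasureTheory
open Pool.Agent.H305R2 (RR RR_nonneg VV ZZ ZZ_le ZZ_nonneg VV_nonneg TT TT_upper TT_lower window_le_TT
  TT_le_window LL ff log_nat_tendsto)
open Pool.Agent.W66S (count_primes)

/-- upper bound for the Euler product at `1 / 2` -/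
lemma ZZ_rate : ∃ C : ℝ, 0 < C ∧ ∀ p : ℕ, 2 ≤ p → ZZ p ≤ Real.exp (C * (p / Real.log p)) := by
  obtain ⟨C, hC, h⟩ := count_primes
  have h4 : 0 < Real.log 4 := Real.log_pos (by norm_num)
  refine ⟨Real.log 4 * (2 * C), by positivity, fun p hp => ?_⟩
  have hp2 : (2 : ℝ) ≤ p := by exact_mod_cast hp
  have hlp : 0 < Real.log p := Real.log_pos (by linarith)
  refine (ZZ_le p).trans ?_
  rw [← Real.exp_log (show (0 : ℝ) < 4 by norm_num), ← Real.exp_nat_mul, Real.exp_le_exp,
    Real.log_exp]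
  have h1 := h (p + 1) (by omega) (Nat.primesBelow (p + 1)) (fun q hq => by
    rw [Nat.mem_primesBelow] at hq
    exact ⟨hq.2, hq.1⟩)
  have h2 : (Nat.primesBelow (p + 1)).card = Nat.primeCounting p := by
    rw [Nat.primesBelow_card_eq_primeCounting']
    rfl
  rw [h2] at h1
  have h3 : C * ((p + 1 : ℕ) : ℝ) / Real.log ((p + 1 : ℕ) : ℝ) ≤ 2 * C * (p / Real.log p) := by
    have h5 : Real.log p ≤ Real.log ((p + 1 : ℕ) : ℝ) := by
      refine Real.log_le_log (by linarith) ?_
      push_cast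
      linarith
    calc C * ((p + 1 : ℕ) : ℝ) / Real.log ((p + 1 : ℕ) : ℝ) ≤ C * (2 * p) / Real.log p := by
          refine div_le_div₀ (by positivity) ?_ hlp h5
          refine mul_le_mul_of_nonneg_left ?_ hC.le
          push_cast
          linarith
      _ = _ := by ring
  calc (Nat.primeCounting p : ℝ) * Real.log 4 ≤ (2 * C * (p / Real.log p)) * Real.log 4 :=
        mul_le_mul_of_nonneg_right (h1.trans h3) h4.le
    _ = _ := by ring

/-- **The local mean with error term.** -/
theorem LL_rate {a : ℝ} (ha : 0 < a) (D : ℝ) : ∃ K : ℝ, 0 < K ∧ ∀ᶠ p : ℕ in atTop,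
    ∀ y : ℝ, |y - a * p| ≤ D →
      |LL p y - Real.exp Real.eulerMascheroniConstant / a * (Real.log p / p)| ≤ K / p := by
  obtain ⟨C, hC, hR⟩ := RR_rate
  obtain ⟨C1, hC1, hV⟩ := VV_rate
  obtain ⟨C2, hC2, hZ⟩ := ZZ_rate
  set G := Real.exp Real.eulerMascheroniConstant with hG
  have hG0 : 0 < G := Real.exp_pos _
  set D0 := 4 / a * (C2 + 1) with hD0
  have hD0p : 0 < D0 := by positivity
  refine ⟨(4 * D0 * G + 3 * C1) * (2 / a) + G * (2 * |D|) / a ^ 2 + 3 + 4, by positivity, ?_⟩
  -- eventual conditions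
  have e2 : ∀ᶠ p : ℕ in atTop, 2 * D0 + 1 ≤ Real.log p := log_nat_tendsto.eventually_ge_atTop _
  have e3 : ∀ᶠ p : ℕ in atTop, 2 * |D| / a ≤ (p : ℝ) := tendsto_natCast_atTop_atTop.eventually_ge_atTop _
  have e4 : ∀ᶠ p : ℕ in atTop, 4 * C / (D0 * a) * Real.log p ≤ p := by
    have h1 := (Real.isLittleO_log_id_atTop).bound (show (0 : ℝ) < 1 / (4 * C / (D0 * a)) by positivity)
    have h2 : ∀ᶠ x : ℝ in atTop, 4 * C / (D0 * a) * Real.log x ≤ x := by
      filter_upwards [h1, eventually_ge_atTop 1] with x hx hx1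
      rw [Real.norm_of_nonneg (Real.log_nonneg hx1), id, Real.norm_of_nonneg (by linarith),
        one_div_mul_eq_div, le_div_iff₀ (by positivity)] at hx
      linarith
    exact tendsto_natCast_atTop_atTop.eventually h2
  have e6 : ∀ᶠ p : ℕ in atTop, Real.log p ^ 2 ≤ (p : ℝ) := by
    have h1 := (Real.isLittleO_pow_log_id_atTop (n := 2)).bound (show (0 : ℝ) < 1 by norm_num)
    have h2 : ∀ᶠ x : ℝ in atTop, Real.log x ^ 2 ≤ x := by
      filter_upwards [h1, eventually_ge_atTop 1] with x hx hx1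
      rw [Real.norm_of_nonneg (by positivity), id, Real.norm_of_nonneg (by linarith), one_mul] at hx
      exact hx
    exact tendsto_natCast_atTop_atTop.eventually h2
  have e7 : ∀ᶠ p : ℕ in atTop, (p : ℝ) + 1 ≤ Real.exp (a * p / 4) := by
    have h1 : ∀ᶠ p : ℕ in atTop, 64 / a ^ 2 ≤ (p : ℝ) := tendsto_natCast_atTop_atTop.eventually_ge_atTop _
    filter_upwards [h1, eventually_ge_atTop 1] with p hp hp1
    have hp1' : (1 : ℝ) ≤ p := by exact_mod_cast hp1
    have h2 := Real.quadratic_le_exp_of_nonneg (show 0 ≤ a * p / 4 by positivity)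
    rw [div_le_iff₀ (by positivity)] at hp
    have h3 : 2 * (p : ℝ) ≤ (a * p / 4) ^ 2 / 2 := by nlinarith
    have h4 : 0 ≤ a * p / 4 := by positivity
    linarith
  filter_upwards [e2, e3, e4, e6, e7, eventually_ge_atTop 3] with p h2 h3 h4 h6 h7 hp3 y hy
  have hp3' : (3 : ℝ) ≤ p := by exact_mod_cast hp3
  have hp0 : (0 : ℝ) < p := by linarith
  set l := Real.log p with hl
  have hl1 : 1 ≤ l := by linarith
  have hl0 : 0 < l := by linarith
  have hDp : |D| ≤ a * p / 2 := by
    rw [div_le_iff₀ ha] at h3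
    linarith
  have hD := le_abs_self D
  obtain ⟨hy1, hy2⟩ := abs_le.1 hy
  have hyl : a * p / 2 ≤ y := by linarith
  have hap : 0 < a * p := by positivity
  have hy0 : 0 < y := by linarith
  set δ := D0 / l with hδ
  have hδ0 : 0 < δ := by positivity
  have hδh : δ ≤ 1 / 2 := by
    rw [hδ, div_le_iff₀ hl0]
    linarith
  have hδ1 : δ < 1 := by linarith
  set X := Real.exp (y / 2) with hX
  have hXp : (p : ℝ) + 1 ≤ X := h7.trans (Real.exp_le_exp.2 (by linarith))
  have hX1 : 1 < X := by linarith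
  have hδy : δ * y ≤ 1 / 2 * y := mul_le_mul_of_nonneg_right hδh hy0.le
  have hXy : X ≤ Real.exp ((1 - δ) * y) := by
    refine Real.exp_le_exp.2 ?_
    linarith
  have hRR : ∀ x, X ≤ x → |RR x * Real.log x - 1| ≤ δ := by
    intro x hx
    refine (hR x (by linarith)).trans ?_
    have h8 : y / 2 ≤ Real.log x := by
      rw [Real.le_log_iff_exp_le (by linarith)]
      exact hx
    have h9 : 0 < y / 2 := by positivity
    calc C / Real.log x ≤ C / (y / 2) := by gcongr
      _ ≤ C / (a * p / 4) := by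
          have : a * p / 4 ≤ y / 2 := by linarith
          gcongr
      _ ≤ δ := by
          rw [hδ, div_le_div_iff₀ (by positivity) hl0]
          rw [div_mul_eq_mul_div, div_le_iff₀ (by positivity)] at h4
          linarith
  have hTu := TT_upper (p := p) hδ0 hδ1 hX1 (fun x hx => by
    linarith [(abs_le.1 (hRR x hx)).2]) hXy hy0
  have hTl := TT_lower (p := p) hδ0 hδ1 hX1 (fun x hx => by
    linarith [(abs_le.1 (hRR x hx)).1]) hXy hy0 (by
      calc Real.exp (δ * y) * (p + 1) ≤ Real.exp (δ * y) * X := by gcongr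
        _ = Real.exp (δ * y + y / 2) := by rw [hX, ← Real.exp_add]
        _ ≤ Real.exp y := Real.exp_le_exp.2 (by linarith))
  have hWu := window_le_TT (p := p) hy0.le
  have hWl := TT_le_window (p := p) hy0.le
  have hLL : LL p y = ∫ t in Set.Ioc y (y + 1), ff p t := rfl
  rw [← hLL] at hWu hWl
  -- the Euler products
  obtain ⟨hV1, hV2⟩ := abs_le.1 (hV p (by omega))
  have hZp := hZ p (by omega)
  have hE : Real.exp (-(δ * y / 2)) * ZZ p ≤ 1 / p := by
    have h8 : δ * y / 2 ≥ (C2 + 1) * (p / l) := by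
      have : δ * y / 2 ≥ δ * (a * p / 2) / 2 := by gcongr
      have e : δ * (a * p / 2) / 2 = (C2 + 1) * (p / l) := by
        rw [hδ, hD0]
        field_simp
        norm_num
      linarith
    calc Real.exp (-(δ * y / 2)) * ZZ p ≤ Real.exp (-((C2 + 1) * (p / l))) * Real.exp (C2 * (p / l)) :=
          mul_le_mul (Real.exp_le_exp.2 (neg_le_neg h8)) hZp (ZZ_nonneg p) (Real.exp_pos _).le
      _ = Real.exp (-(p / l)) := by rw [← Real.exp_add]; congr 1; ring
      _ ≤ Real.exp (-l) := by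
          refine Real.exp_le_exp.2 (neg_le_neg ?_)
          rw [le_div_iff₀ hl0, ← sq]
          exact h6
      _ = 1 / p := by rw [Real.exp_neg, hl, Real.exp_log hp0, one_div]
  have hey : Real.exp (-y) ≤ 1 / p := by
    rw [Real.exp_neg, one_div]
    refine inv_anti₀ hp0 ?_
    have : X ≤ Real.exp y := Real.exp_le_exp.2 (by linarith)
    linarith
  have hE0 : 0 ≤ Real.exp (-(δ * y / 2)) * ZZ p := mul_nonneg (Real.exp_pos _).le (ZZ_nonneg p)
  have hey0 : 0 < Real.exp (-y) := Real.exp_pos _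
  -- the main term
  have hyinv : 1 / y ≤ 2 / a * (1 / p) := by
    have : 2 / a * (1 / (p : ℝ)) = 1 / (a * p / 2) := by field_simp
    rw [this]
    exact one_div_le_one_div_of_le (by positivity) hyl
  have hyinv0 : 0 < 1 / y := by positivity
  have hmain : |G * l / y - G / a * (l / p)| ≤ G * (2 * |D|) / a ^ 2 * (1 / p) := by
    have hyne : y ≠ 0 := hy0.ne'
    have hane : a ≠ 0 := ha.ne'
    have hpne : (p : ℝ) ≠ 0 := hp0.ne'
    have e : G * l / y - G / a * (l / p) = (G * (l / p) / a) * ((a * p - y) * (1 / y)) := by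
      field_simp
    have h8 : l ≤ p := by
      have := Real.log_le_sub_one_of_pos hp0
      linarith
    have h9 : |a * p - y| ≤ |D| := by
      rw [abs_sub_comm]
      exact hy.trans hD
    have h10 : |(a * p - y) * (1 / y)| ≤ |D| * (2 / a * (1 / p)) := by
      rw [abs_mul, abs_of_pos hyinv0]
      exact mul_le_mul h9 hyinv hyinv0.le (abs_nonneg _)
    have h11 : l / p ≤ 1 := by rw [div_le_one hp0]; exact h8
    have h12 : 0 ≤ G * (l / p) / a := by positivity
    have h13 : G * (l / p) / a ≤ G / a := by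
      exact div_le_div_of_nonneg_right (mul_le_of_le_one_right hG0.le h11) ha.le
    rw [e, abs_mul, abs_of_nonneg h12]
    calc G * (l / p) / a * |(a * p - y) * (1 / y)| ≤ G / a * (|D| * (2 / a * (1 / p))) :=
          mul_le_mul h13 h10 (abs_nonneg _) (by positivity)
      _ = _ := by ring
  obtain ⟨hm1, hm2⟩ := abs_le.1 hmain
  have hδl : δ * l = D0 := by rw [hδ]; field_simp
  have hVle : VV p ≤ G * l + C1 := by linarith
  have hVge : G * l - C1 ≤ VV p := by linarith
  have hfrac : (1 + δ) / ((1 - δ) * y) ≤ (1 + 4 * δ) * (1 / y) := by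
    rw [div_le_iff₀ (mul_pos (by linarith) hy0)]
    have : (1 + 4 * δ) * (1 / y) * ((1 - δ) * y) = (1 + 4 * δ) * (1 - δ) := by field_simp
    rw [this]
    have t1 : 0 ≤ δ * (2 - 4 * δ) := mul_nonneg hδ0.le (by linarith)
    linarith
  have hup : TT p y ≤ G * l / y + (4 * D0 * G + 3 * C1) * (1 / y) + 3 * (1 / p) := by
    have h8 : (1 + δ) / ((1 - δ) * y) * VV p ≤ (1 + 4 * δ) * (1 / y) * (G * l + C1) := by
      refine mul_le_mul hfrac hVle (VV_nonneg p) (by positivity)
    have h9 : (1 + 4 * δ) * (1 / y) * (G * l + C1) =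
        G * l / y + (4 * (δ * l) * G + (1 + 4 * δ) * C1) * (1 / y) := by
      ring
    rw [hδl] at h9
    have h10 : (4 * D0 * G + (1 + 4 * δ) * C1) * (1 / y) ≤ (4 * D0 * G + 3 * C1) * (1 / y) := by
      refine mul_le_mul_of_nonneg_right ?_ hyinv0.le
      have t1 : δ * C1 ≤ 1 / 2 * C1 := mul_le_mul_of_nonneg_right hδh hC1.le
      linarith
    linarith
  have hlow : G * l / y - (4 * D0 * G + 3 * C1) * (1 / y) - 3 * (1 / p) ≤ TT p y := by
    have h8 : (1 - δ) / y * (G * l - C1) ≤ (1 - δ) / y * VV p :=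
      mul_le_mul_of_nonneg_left hVge (div_nonneg (by linarith) hy0.le)
    have h9 : (1 - δ) / y * (G * l - C1) = G * l / y - ((δ * l) * G + (1 - δ) * C1) * (1 / y) := by
      ring
    rw [hδl] at h9
    have h10 : (D0 * G + (1 - δ) * C1) * (1 / y) ≤ (4 * D0 * G + 3 * C1) * (1 / y) := by
      refine mul_le_mul_of_nonneg_right ?_ hyinv0.le
      have t1 := mul_pos hD0p hG0
      have t2 := mul_pos hδ0 hC1
      linarith
    have h11 : 1 / y * (Real.exp (-(δ * y / 2)) * ZZ p) ≤ 3 * (1 / p) := by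
      have h12 : 1 / y ≤ 3 := by
        rw [div_le_iff₀ hy0]
        have : 1 < y / 2 := by
          have h13 : Real.exp 1 < X := by
            have := Real.exp_one_lt_d9
            linarith
          exact Real.exp_lt_exp.1 h13
        linarith
      exact mul_le_mul h12 hE hE0 (by norm_num)
    linarith
  have hfin : (4 * D0 * G + 3 * C1) * (1 / y) ≤ (4 * D0 * G + 3 * C1) * (2 / a) * (1 / p) := by
    calc (4 * D0 * G + 3 * C1) * (1 / y) ≤ (4 * D0 * G + 3 * C1) * (2 / a * (1 / p)) :=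
          mul_le_mul_of_nonneg_left hyinv (by positivity)
      _ = _ := by ring
  have hK : ((4 * D0 * G + 3 * C1) * (2 / a) + G * (2 * |D|) / a ^ 2 + 3 + 4) / (p : ℝ) =
      (4 * D0 * G + 3 * C1) * (2 / a) * (1 / p) + G * (2 * |D|) / a ^ 2 * (1 / p) + 3 * (1 / p) +
        4 * (1 / p) := by ring
  have h1p : 0 < 1 / (p : ℝ) := by positivity
  rw [hK, abs_le]
  constructor <;> linarith

end Pool.Agent.TH888.R
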