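import Mathlib

set_option autoImplicit false

/-!
# A dyadic chaining bound of Gál-Koksma type
-/

namespace Pool.Agent.TH888.R

open Finset Filter Topology MeasureTheory

/-- pairing of consecutive terms -/
def pr2 (Y : ℕ → ℝ) (i : ℕ) : ℝ := Y (2 * i) + Y (2 * i + 1)

/-- the dyadic energy of the first `2 ^ R` terms -/
def En : ℕ → (ℕ → ℝ) → ℝ
  | 0, Y => Y 0 ^ 2
  | R + 1, Y => (∑ j ∈ range (2 ^ (R + 1)), Y j ^ 2) + En R (pr2 Y)

lemma En_nonneg (R : ℕ) : ∀ Y : ℕ → ℝ, 0 ≤ En R Y := by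
  induction R with
  | zero => intro Y; exact sq_nonneg _
  | succ R ih =>
    intro Y
    exact add_nonneg (Finset.sum_nonneg fun _ _ => sq_nonneg _) (ih _)

lemma sum_pr2 (Y : ℕ → ℝ) (J : ℕ) : ∑ i ∈ range J, pr2 Y i = ∑ j ∈ range (2 * J), Y j := by
  induction J with
  | zero => simp
  | succ J ih =>
    rw [Finset.sum_range_succ, ih, show 2 * (J + 1) = 2 * J + 1 + 1 by ring, Finset.sum_range_succ,
      Finset.sum_range_succ]
    unfold pr2
    ring

/-- initial segments are controlled by the dyadic energy -/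
lemma sq_le_En (R : ℕ) : ∀ (Y : ℕ → ℝ) (J : ℕ), J ≤ 2 ^ R →
    (∑ j ∈ range J, Y j) ^ 2 ≤ ((R : ℝ) + 1) * En R Y := by
  induction R with
  | zero =>
    intro Y J hJ
    have : J = 0 ∨ J = 1 := by simp at hJ; omega
    rcases this with rfl | rfl
    · simp [En]
      positivity
    · simp [En]
  | succ R ih =>
    intro Y J hJ
    obtain ⟨J', hJ'⟩ := Nat.even_or_odd' J
    have hE := En_nonneg R (pr2 Y)
    have hS : 0 ≤ ∑ j ∈ range (2 ^ (R + 1)), Y j ^ 2 := Finset.sum_nonneg fun _ _ => sq_nonneg _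
    have hR : (0 : ℝ) ≤ R := Nat.cast_nonneg R
    have hdef : En (R + 1) Y = (∑ j ∈ range (2 ^ (R + 1)), Y j ^ 2) + En R (pr2 Y) := rfl
    rw [hdef]
    push_cast
    rcases hJ' with rfl | rfl
    · have h1 := ih (pr2 Y) J' (by rw [pow_succ] at hJ; omega)
      rw [sum_pr2] at h1
      nlinarith
    · have h1 := ih (pr2 Y) J' (by rw [pow_succ] at hJ; omega)
      rw [sum_pr2] at h1
      rw [Finset.sum_range_succ]
      set A := ∑ j ∈ range (2 * J'), Y j
      set y := Y (2 * J')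
      have h2 : y ^ 2 ≤ ∑ j ∈ range (2 ^ (R + 1)), Y j ^ 2 :=
        Finset.single_le_sum (f := fun j => Y j ^ 2) (fun _ _ => sq_nonneg _)
          (mem_range.2 (by omega))
      have h3 : (A + y) ^ 2 ≤ (1 + 1 / ((R : ℝ) + 1)) * A ^ 2 + (1 + ((R : ℝ) + 1)) * y ^ 2 := by
        have h4 : 0 ≤ (A - ((R : ℝ) + 1) * y) ^ 2 / ((R : ℝ) + 1) := by positivity
        have h5 : (A - ((R : ℝ) + 1) * y) ^ 2 / ((R : ℝ) + 1) =
            1 / ((R : ℝ) + 1) * A ^ 2 - 2 * A * y + ((R : ℝ) + 1) * y ^ 2 := by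
          field_simp
          ring
        nlinarith
      have h6 : (1 + 1 / ((R : ℝ) + 1)) * A ^ 2 ≤ ((R : ℝ) + 2) * En R (pr2 Y) := by
        calc (1 + 1 / ((R : ℝ) + 1)) * A ^ 2 ≤ (1 + 1 / ((R : ℝ) + 1)) * (((R : ℝ) + 1) * En R (pr2 Y)) :=
              mul_le_mul_of_nonneg_left h1 (by positivity)
          _ = _ := by field_simp; ring
      nlinarith

section

variable {α : Type*} [MeasurableSpace α] {μ : Measure α} [IsFiniteMeasure μ]

lemma En_meas (R : ℕ) : ∀ Y : ℕ → α → ℝ, (∀ j, Measurable (Y j)) →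
    Measurable (fun x => En R (fun j => Y j x)) := by
  induction R with
  | zero => intro Y hY; exact (hY 0).pow_const 2
  | succ R ih =>
    intro Y hY
    have h1 : Measurable (fun x => ∑ j ∈ range (2 ^ (R + 1)), Y j x ^ 2) :=
      Finset.measurable_fun_sum _ fun j _ => (hY j).pow_const 2
    have h2 := ih (fun i x => Y (2 * i) x + Y (2 * i + 1) x) (fun i => (hY _).add (hY _))
    exact h1.add h2

/-- mean of the dyadic energy -/
lemma int_En (R : ℕ) : ∀ (C : ℝ) (Y : ℕ → α → ℝ),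
    (∀ a b : ℕ, a ≤ b → Integrable (fun x => (∑ j ∈ Ico a b, Y j x) ^ 2) μ) →
    (∀ a b : ℕ, a ≤ b → ∫ x, (∑ j ∈ Ico a b, Y j x) ^ 2 ∂μ ≤ C * ((b : ℝ) - a)) →
    Integrable (fun x => En R (fun j => Y j x)) μ ∧
    ∫ x, En R (fun j => Y j x) ∂μ ≤ C * (((R : ℝ) + 1) * 2 ^ R) := by
  induction R with
  | zero =>
    intro C Y hi hC
    have h1 := hi 0 1 (by norm_num)
    have h2 := hC 0 1 (by norm_num)
    simp at h1 h2
    refine ⟨h1, ?_⟩
    simpa [En] using h2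
  | succ R ih =>
    intro C Y hi hC
    have hpair : ∀ a b : ℕ, a ≤ b → ∀ x, ∑ i ∈ Ico a b, (Y (2 * i) x + Y (2 * i + 1) x) =
        ∑ j ∈ Ico (2 * a) (2 * b), Y j x := by
      intro a b hab x
      rw [Finset.sum_Ico_eq_sub _ hab, Finset.sum_Ico_eq_sub _ (by omega : 2 * a ≤ 2 * b)]
      have h1 := sum_pr2 (fun j => Y j x) a
      have h2 := sum_pr2 (fun j => Y j x) b
      unfold pr2 at h1 h2
      rw [h1, h2]
    obtain ⟨hi2, hC2⟩ := ih (2 * C) (fun i x => Y (2 * i) x + Y (2 * i + 1) x)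
      (by
        intro a b hab
        simp only [hpair a b hab]
        exact hi _ _ (by omega))
      (by
        intro a b hab
        simp only [hpair a b hab]
        refine (hC _ _ (by omega)).trans (le_of_eq ?_)
        push_cast
        ring)
    have hone : ∀ j : ℕ, Integrable (fun x => Y j x ^ 2) μ ∧ ∫ x, Y j x ^ 2 ∂μ ≤ C := by
      intro j
      have h1 := hi j (j + 1) (by omega)
      have h2 := hC j (j + 1) (by omega)
      simp only [Nat.Ico_succ_singleton, Finset.sum_singleton] at h1 h2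
      refine ⟨h1, h2.trans (le_of_eq ?_)⟩
      push_cast
      ring
    have hsum : Integrable (fun x => ∑ j ∈ range (2 ^ (R + 1)), Y j x ^ 2) μ :=
      integrable_finsetSum _ fun j _ => (hone j).1
    have hdef : ∀ x, En (R + 1) (fun j => Y j x) = (∑ j ∈ range (2 ^ (R + 1)), Y j x ^ 2) +
        En R (fun i => Y (2 * i) x + Y (2 * i + 1) x) := fun x => rfl
    simp only [hdef]
    refine ⟨hsum.add hi2, ?_⟩
    rw [integral_add hsum hi2, integral_finsetSum _ fun j _ => (hone j).1]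
    have h3 : ∑ j ∈ range (2 ^ (R + 1)), ∫ x, Y j x ^ 2 ∂μ ≤ 2 ^ (R + 1) * C := by
      calc _ ≤ ∑ j ∈ range (2 ^ (R + 1)), C := Finset.sum_le_sum fun j _ => (hone j).2
        _ = _ := by rw [Finset.sum_const, Finset.card_range, nsmul_eq_mul]; push_cast; ring
    push_cast
    calc _ ≤ 2 ^ (R + 1) * C + 2 * C * (((R : ℝ) + 1) * 2 ^ R) := add_le_add h3 hC2
      _ = _ := by ring

/-- nonnegative functions with summable means are bounded almost everywhere -/
lemma ae_bdd {Z : ℕ → α → ℝ} (h0 : ∀ k x, 0 ≤ Z k x) (hi : ∀ k, Integrable (Z k) μ)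
    (hs : Summable (fun k => ∫ x, Z k x ∂μ)) : ∀ᵐ x ∂μ, ∃ B : ℝ, 0 ≤ B ∧ ∀ k, Z k x ≤ B := by
  have h1 : ∫⁻ x, ∑' k, ENNReal.ofReal (Z k x) ∂μ < ⊤ := by
    rw [lintegral_tsum fun k => (hi k).aestronglyMeasurable.aemeasurable.ennreal_ofReal]
    have h2 : ∀ k, ∫⁻ x, ENNReal.ofReal (Z k x) ∂μ = ENNReal.ofReal (∫ x, Z k x ∂μ) := fun k =>
      (ofReal_integral_eq_lintegral_ofReal (hi k) (Eventually.of_forall (h0 k))).symm
    simp only [h2]
    rw [← ENNReal.ofReal_tsum_of_nonneg (fun k => integral_nonneg (h0 k)) hs]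
    exact ENNReal.ofReal_lt_top
  have h3 : AEMeasurable (fun x => ∑' k, ENNReal.ofReal (Z k x)) μ :=
    AEMeasurable.ennreal_tsum fun k => (hi k).aestronglyMeasurable.aemeasurable.ennreal_ofReal
  filter_upwards [ae_lt_top' h3 h1.ne] with x hx
  refine ⟨(∑' k, ENNReal.ofReal (Z k x)).toReal, ENNReal.toReal_nonneg, fun k => ?_⟩
  have h4 : ENNReal.ofReal (Z k x) ≤ ∑' k, ENNReal.ofReal (Z k x) := ENNReal.le_tsum k
  calc Z k x = (ENNReal.ofReal (Z k x)).toReal := (ENNReal.toReal_ofReal (h0 k x)).symm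
    _ ≤ _ := ENNReal.toReal_mono hx.ne h4

/-- **Chaining.** Square root bounds, up to a power of the logarithm, for the partial sums of
functions with bounded increments of variance. -/
theorem chain {C : ℝ} (hC0 : 0 ≤ C) {Y : ℕ → α → ℝ}
    (hi : ∀ a b : ℕ, a ≤ b → Integrable (fun x => (∑ j ∈ Ico a b, Y j x) ^ 2) μ)
    (hC : ∀ a b : ℕ, a ≤ b → ∫ x, (∑ j ∈ Ico a b, Y j x) ^ 2 ∂μ ≤ C * ((b : ℝ) - a)) :
    ∀ᵐ x ∂μ, ∃ B : ℝ, 0 ≤ B ∧ ∀ J : ℕ, |∑ j ∈ range J, Y j x| ≤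
      B * (Real.sqrt ((J : ℝ) + 1) * (1 + Real.log ((J : ℝ) + 1)) ^ 2) := by
  have key := ae_bdd (μ := μ) (Z := fun R x => En R (fun j => Y j x) * (1 / (2 ^ R * ((R : ℝ) + 1) ^ 3)))
    (fun R x => mul_nonneg (En_nonneg _ _) (by positivity))
    (fun R => ((int_En R C Y hi hC).1).mul_const _)
    (by
      refine Summable.of_nonneg_of_le (fun R => integral_nonneg fun x => mul_nonneg (En_nonneg _ _)
        (by positivity)) (g := fun R => integral μ fun x => En R (fun j => Y j x) * (1 / (2 ^ R * ((R : ℝ) + 1) ^ 3)))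
        (f := fun R : ℕ => C * (1 / ((R : ℝ) + 1) ^ 2)) (fun R => ?_) ?_
      · rw [integral_mul_const]
        calc (∫ x, En R (fun j => Y j x) ∂μ) * (1 / (2 ^ R * ((R : ℝ) + 1) ^ 3)) ≤
            C * (((R : ℝ) + 1) * 2 ^ R) * (1 / (2 ^ R * ((R : ℝ) + 1) ^ 3)) :=
              mul_le_mul_of_nonneg_right (int_En R C Y hi hC).2 (by positivity)
          _ = _ := by
              field_simp
      · refine Summable.mul_left _ ?_
        have h2 : Summable (fun n : ℕ => 1 / (n : ℝ) ^ 2) := Real.summable_one_div_nat_pow.2 (by norm_num)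
        have h3 := (summable_nat_add_iff (f := fun n : ℕ => 1 / (n : ℝ) ^ 2) 1).mpr h2
        refine h3.congr fun n => ?_
        push_cast
        rfl)
  filter_upwards [key] with x hx
  obtain ⟨B, hB0, hB⟩ := hx
  refine ⟨Real.sqrt (32 * B), Real.sqrt_nonneg _, fun J => ?_⟩
  set R := Nat.log 2 J + 1 with hR
  have hJR : J ≤ 2 ^ R := (Nat.lt_pow_succ_log_self (by norm_num) J).le
  have h1 := sq_le_En R (fun j => Y j x) J hJR
  have h2 := hB R
  have h2R : (0 : ℝ) < 2 ^ R := by positivity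
  have hR0 : (0 : ℝ) < (R : ℝ) + 1 := by positivity
  have h3 : En R (fun j => Y j x) ≤ B * (2 ^ R * ((R : ℝ) + 1) ^ 3) := by
    have h4 : 0 < (2 : ℝ) ^ R * ((R : ℝ) + 1) ^ 3 := by positivity
    rwa [mul_one_div, div_le_iff₀ h4] at h2
  have hJ1 : (1 : ℝ) ≤ (J : ℝ) + 1 := by have := Nat.cast_nonneg (α := ℝ) J; linarith
  have hlogJ : 0 ≤ Real.log ((J : ℝ) + 1) := Real.log_nonneg hJ1
  have h5 : (2 : ℝ) ^ R ≤ 2 * ((J : ℝ) + 1) := by
    rcases Nat.eq_zero_or_pos J with hJ | hJ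
    · rw [hR, hJ]; norm_num
    · have h6 : 2 ^ Nat.log 2 J ≤ J := Nat.pow_log_le_self 2 hJ.ne'
      have h7 : ((2 ^ Nat.log 2 J : ℕ) : ℝ) ≤ J := by exact_mod_cast h6
      rw [hR, pow_succ]
      push_cast at h7
      linarith
  have h6 : (R : ℝ) + 1 ≤ 2 * (1 + Real.log ((J : ℝ) + 1)) := by
    have h7 : Real.log (2 ^ Nat.log 2 J) ≤ Real.log ((J : ℝ) + 1) := by
      refine Real.log_le_log (by positivity) ?_
      rcases Nat.eq_zero_or_pos J with hJ | hJ
      · rw [hJ]; norm_num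
      · have h6 : 2 ^ Nat.log 2 J ≤ J := Nat.pow_log_le_self 2 hJ.ne'
        have h7 : ((2 ^ Nat.log 2 J : ℕ) : ℝ) ≤ J := by exact_mod_cast h6
        push_cast at h7
        linarith
    rw [Real.log_pow] at h7
    have h8 := Real.log_two_gt_d9
    have h9 : (0 : ℝ) ≤ Nat.log 2 J := Nat.cast_nonneg _
    rw [hR]
    push_cast
    nlinarith
  have h7 : (∑ j ∈ range J, Y j x) ^ 2 ≤ (Real.sqrt (32 * B) *
      (Real.sqrt ((J : ℝ) + 1) * (1 + Real.log ((J : ℝ) + 1)) ^ 2)) ^ 2 := by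
    rw [mul_pow, mul_pow, Real.sq_sqrt (by positivity), Real.sq_sqrt (by linarith), ← pow_mul]
    set L := 1 + Real.log ((J : ℝ) + 1) with hL
    have hL1 : 1 ≤ L := by linarith
    calc (∑ j ∈ range J, Y j x) ^ 2 ≤ ((R : ℝ) + 1) * (B * (2 ^ R * ((R : ℝ) + 1) ^ 3)) :=
          h1.trans (mul_le_mul_of_nonneg_left h3 hR0.le)
      _ = B * (2 ^ R * ((R : ℝ) + 1) ^ 4) := by ring
      _ ≤ B * ((2 * ((J : ℝ) + 1)) * (2 * L) ^ 4) := by gcongr
      _ = _ := by ring
  exact abs_le_of_sq_le_sq h7 (by positivity)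

end

end Pool.Agent.TH888.R
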