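import Mathlib
import Pool.Agent.TH888.R.GK

set_option autoImplicit false

/-!
# From blocks to all partial sums
-/

namespace Pool.Agent.TH888.R

open Finset Filter Topology MeasureTheory

/-- the growth function of the error terms -/
noncomputable def gr (x : ℝ) : ℝ := Real.sqrt (1 + x) * (1 + Real.log (1 + x)) ^ 2

lemma one_le_gr {x : ℝ} (hx : 0 ≤ x) : 1 ≤ gr x := by
  unfold gr
  have h1 : 1 ≤ Real.sqrt (1 + x) := by rw [Real.one_le_sqrt]; linarith
  have h2 : 0 ≤ Real.log (1 + x) := Real.log_nonneg (by linarith)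
  have h3 : 1 ≤ (1 + Real.log (1 + x)) ^ 2 := by nlinarith
  nlinarith

lemma gr_mono {x y : ℝ} (hx : 0 ≤ x) (hxy : x ≤ y) : gr x ≤ gr y := by
  unfold gr
  have h2 : 0 ≤ Real.log (1 + x) := Real.log_nonneg (by linarith)
  have h3 : Real.log (1 + x) ≤ Real.log (1 + y) := Real.log_le_log (by linarith) (by linarith)
  have h4 : Real.sqrt (1 + x) ≤ Real.sqrt (1 + y) := Real.sqrt_le_sqrt (by linarith)
  gcongr

lemma gr_le {x y c : ℝ} (hx : 0 ≤ x) (hc : 1 ≤ c) (hy : 0 ≤ y) (hyx : 1 + y ≤ c * (1 + x)) :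
    gr y ≤ c ^ 3 * gr x := by
  unfold gr
  have h1 : Real.sqrt (1 + y) ≤ c * Real.sqrt (1 + x) := by
    rw [Real.sqrt_le_left (by positivity), mul_pow, Real.sq_sqrt (by linarith)]
    nlinarith
  have h2 : 0 ≤ Real.log (1 + x) := Real.log_nonneg (by linarith)
  have h2' : 0 ≤ Real.log (1 + y) := Real.log_nonneg (by linarith)
  have h3 : Real.log (1 + y) ≤ Real.log c + Real.log (1 + x) := by
    rw [← Real.log_mul (by linarith) (by linarith)]
    exact Real.log_le_log (by linarith) hyx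
  have h4 : Real.log c ≤ c - 1 := Real.log_le_sub_one_of_pos (by linarith)
  have h5 : 1 + Real.log (1 + y) ≤ c * (1 + Real.log (1 + x)) := by nlinarith
  calc Real.sqrt (1 + y) * (1 + Real.log (1 + y)) ^ 2 ≤
      (c * Real.sqrt (1 + x)) * (c * (1 + Real.log (1 + x))) ^ 2 := by gcongr
    _ = _ := by ring

section

variable {α : Type*} [MeasurableSpace α] {μ : Measure α} [IsFiniteMeasure μ]

/-- **The abstract law with error term.** -/
theorem blocks {f m : ℕ → α → ℝ} {φ : ℕ → ℝ} {B0 K C : ℝ} (hφ0 : ∀ q, 0 ≤ φ q)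
    (hφB : ∀ q, φ q ≤ B0) (hdiv : Tendsto (fun n => ∑ q ∈ range n, φ q) atTop atTop)
    (hK : 0 ≤ K) (hC : 0 ≤ C)
    (hfm : ∀ q, Measurable (f q)) (hmm : ∀ q, Measurable (m q))
    (hf0 : ∀ q x, 0 ≤ f q x) (hm0 : ∀ q x, 0 ≤ m q x) (hb : ∀ q x, |f q x - m q x| ≤ 1)
    (hmK : ∀ᵐ x ∂μ, ∀ q, m q x ≤ K * φ q)
    (hvar : ∀ a b : ℕ, a ≤ b → ∫ x, (∑ q ∈ Ico a b, (f q x - m q x)) ^ 2 ∂μ ≤
      C * ∑ q ∈ Ico a b, φ q) :
    ∀ᵐ x ∂μ, ∃ B : ℝ, 0 ≤ B ∧ ∀ n : ℕ, |∑ q ∈ range n, (f q x - m q x)| ≤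
      B * gr (∑ q ∈ range n, φ q) := by
  classical
  set Φ : ℕ → ℝ := fun n => ∑ q ∈ range n, φ q with hΦ
  have hB0 : 0 ≤ B0 := (hφ0 0).trans (hφB 0)
  have hΦmono : Monotone Φ := by
    intro a b hab
    exact Finset.sum_le_sum_of_subset_of_nonneg (Finset.range_mono hab) fun _ _ _ => hφ0 _
  have hΦ0 : Φ 0 = 0 := by simp [hΦ]
  have hΦnn : ∀ n, 0 ≤ Φ n := fun n => Finset.sum_nonneg fun _ _ => hφ0 _
  have hex : ∀ j : ℕ, ∃ n, (j : ℝ) ≤ Φ n := fun j => (hdiv.eventually_ge_atTop (j : ℝ)).exists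
  set N : ℕ → ℕ := fun j => Nat.find (hex j) with hN
  have hN1 : ∀ j : ℕ, (j : ℝ) ≤ Φ (N j) := fun j => Nat.find_spec (hex j)
  have hN2 : ∀ j : ℕ, Φ (N j) ≤ j + B0 := by
    intro j
    rcases Nat.eq_zero_or_pos (N j) with h | h
    · rw [h, hΦ0]; positivity
    · obtain ⟨k, hk⟩ : ∃ k, N j = k + 1 := ⟨N j - 1, by omega⟩
      have h1 : ¬ (j : ℝ) ≤ Φ k := Nat.find_min (hex j) (by
        have : N j = Nat.find (hex j) := rfl
        omega)
      rw [hk]
      have h2 : Φ (k + 1) = Φ k + φ k := by simp only [hΦ]; rw [Finset.sum_range_succ]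
      rw [h2]
      linarith [hφB k]
  have hNle : ∀ j n : ℕ, (j : ℝ) ≤ Φ n → N j ≤ n := fun j n h => Nat.find_min' (hex j) h
  have hNmono : Monotone N := by
    refine monotone_nat_of_le_succ fun j => hNle _ _ ?_
    have := hN1 (j + 1)
    push_cast at this
    linarith
  have hN0 : N 0 = 0 := by
    have := hNle 0 0 (by rw [hΦ0]; simp)
    omega
  set X : ℕ → α → ℝ := fun q x => f q x - m q x with hX
  have hXm : ∀ q, Measurable (X q) := fun q => (hfm q).sub (hmm q)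
  set Y : ℕ → α → ℝ := fun j x => ∑ q ∈ Ico (N j) (N (j + 1)), X q x with hY
  have hYsum : ∀ a b : ℕ, a ≤ b → ∀ x, ∑ j ∈ Ico a b, Y j x = ∑ q ∈ Ico (N a) (N b), X q x := by
    intro a b hab x
    induction b, hab using Nat.le_induction with
    | base => simp
    | succ b hab ih =>
      rw [Finset.sum_Ico_succ_top hab, ih]
      exact Finset.sum_Ico_consecutive _ (hNmono hab) (hNmono (Nat.le_succ b))
  have hint : ∀ a b : ℕ, Integrable (fun x => (∑ q ∈ Ico a b, X q x) ^ 2) μ := by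
    intro a b
    refine Integrable.of_bound ((Finset.measurable_fun_sum _ fun q _ => hXm q).pow_const
      2).aestronglyMeasurable (((b - a : ℕ) : ℝ) ^ 2) (Eventually.of_forall fun x => ?_)
    rw [Real.norm_eq_abs, abs_pow]
    refine pow_le_pow_left₀ (abs_nonneg _) ?_ 2
    refine (Finset.abs_sum_le_sum_abs _ _).trans ?_
    calc ∑ q ∈ Ico a b, |X q x| ≤ ∑ q ∈ Ico a b, (1 : ℝ) := Finset.sum_le_sum fun q _ => hb q x
      _ = _ := by rw [Finset.sum_const, Nat.card_Ico, nsmul_eq_mul, mul_one]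
  have hkey := chain (μ := μ) (C := C * (1 + B0)) (by positivity) (Y := Y)
    (fun a b hab => by
      simp only [hYsum a b hab]
      exact hint _ _)
    (fun a b hab => by
      simp only [hYsum a b hab]
      rcases hab.eq_or_lt with h | h
      · subst h; simp
      · refine (hvar _ _ (hNmono hab)).trans ?_
        have h1 : ∑ q ∈ Ico (N a) (N b), φ q = Φ (N b) - Φ (N a) := by
          rw [Finset.sum_Ico_eq_sub _ (hNmono hab)]
        rw [h1, mul_assoc]
        refine mul_le_mul_of_nonneg_left ?_ hC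
        have h2 := hN2 b
        have h3 := hN1 a
        have h4 : (a : ℝ) + 1 ≤ b := by exact_mod_cast h
        nlinarith)
  filter_upwards [hkey, hmK] with x hx hmx
  obtain ⟨B, hB, hBJ⟩ := hx
  have hsq : Real.sqrt 8 ≤ 8 := by
    rw [Real.sqrt_le_left (by norm_num)]; norm_num
  refine ⟨8 * B + K * (1 + B0), by positivity, fun n => ?_⟩
  set j := ⌊Φ n⌋₊ with hj
  have hj1 : (j : ℝ) ≤ Φ n := Nat.floor_le (hΦnn n)
  have hj2 : Φ n < j + 1 := Nat.lt_floor_add_one _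
  have h1 : N j ≤ n := hNle j n hj1
  have h2 : n ≤ N (j + 1) := by
    by_contra h
    have h3 := hΦmono (not_le.1 h).le
    have h4 := hN1 (j + 1)
    push_cast at h4
    linarith
  set F : ℕ → ℝ := fun n => ∑ q ∈ range n, f q x with hF
  set Mm : ℕ → ℝ := fun n => ∑ q ∈ range n, m q x with hMm
  have hFmono : Monotone F := fun a b hab =>
    Finset.sum_le_sum_of_subset_of_nonneg (Finset.range_mono hab) fun _ _ _ => hf0 _ _
  have hMmono : Monotone Mm := fun a b hab =>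
    Finset.sum_le_sum_of_subset_of_nonneg (Finset.range_mono hab) fun _ _ _ => hm0 _ _
  have hSum : ∀ n, ∑ q ∈ range n, (f q x - m q x) = F n - Mm n := fun n => Finset.sum_sub_distrib _ _
  have hSJ : ∀ J, ∑ i ∈ range J, Y i x = F (N J) - Mm (N J) := by
    intro J
    rw [← hSum, Finset.range_eq_Ico, Finset.range_eq_Ico, hYsum 0 J (Nat.zero_le J), hN0]
  have hMdiff : Mm (N (j + 1)) - Mm (N j) ≤ K * (1 + B0) := by
    have e1 : Mm (N (j + 1)) - Mm (N j) = ∑ q ∈ Ico (N j) (N (j + 1)), m q x := by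
      rw [Finset.sum_Ico_eq_sub _ (hNmono (Nat.le_succ j))]
    have e2 : ∑ q ∈ Ico (N j) (N (j + 1)), φ q = Φ (N (j + 1)) - Φ (N j) := by
      rw [Finset.sum_Ico_eq_sub _ (hNmono (Nat.le_succ j))]
    rw [e1]
    calc ∑ q ∈ Ico (N j) (N (j + 1)), m q x ≤ ∑ q ∈ Ico (N j) (N (j + 1)), K * φ q :=
          Finset.sum_le_sum fun q _ => hmx q
      _ = K * (Φ (N (j + 1)) - Φ (N j)) := by rw [← Finset.mul_sum, e2]
      _ ≤ _ := by
          refine mul_le_mul_of_nonneg_left ?_ hK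
          have h3 := hN2 (j + 1)
          have h4 := hN1 j
          push_cast at h3
          linarith
  have hG : ∀ J : ℕ, (J : ℝ) ≤ Φ n + 1 → Real.sqrt ((J : ℝ) + 1) * (1 + Real.log ((J : ℝ) + 1)) ^ 2 ≤
      8 * gr (Φ n) := by
    intro J hJ
    have h3 := gr_le (x := Φ n) (y := J) (c := 2) (hΦnn n) (by norm_num) (Nat.cast_nonneg J)
      (by linarith [hΦnn n])
    unfold gr at h3 ⊢
    rw [add_comm (J : ℝ) 1]
    norm_num at h3 ⊢
    exact h3
  have hG1 := one_le_gr (hΦnn n)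
  have ha := abs_le.1 ((hBJ j).trans (mul_le_mul_of_nonneg_left (hG j (by linarith)) hB))
  have hb' := abs_le.1 ((hBJ (j + 1)).trans (mul_le_mul_of_nonneg_left (hG (j + 1) (by
    push_cast; linarith)) hB))
  rw [hSJ] at ha hb'
  rw [hSum]
  have hc1 := hFmono h1
  have hc2 := hFmono h2
  have hc3 := hMmono h1
  have hc4 := hMmono h2
  have hKB : K * (1 + B0) ≤ K * (1 + B0) * gr (Φ n) := by
    have : 0 ≤ K * (1 + B0) := by positivity
    nlinarith
  rw [abs_le]
  constructor <;> linarith [ha.1, ha.2, hb'.1, hb'.2]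

end

end Pool.Agent.TH888.R
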