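import Mathlib
import Pool.Agent.W66.SC

set_option autoImplicit false

/-!
# Sums over the primes
-/

namespace Pool.Agent.TH888.R

open Finset Filter Topology
open Pool.Agent.W66S (count_primes)

/-- the weight of a prime -/
noncomputable def wt (q : ℕ) : ℝ := Real.log q / q

lemma wt_nonneg (q : ℕ) : 0 ≤ wt q := div_nonneg (Real.log_natCast_nonneg q) (Nat.cast_nonneg q)

lemma wt_le_one (q : ℕ) : wt q ≤ 1 := by
  unfold wt
  rcases Nat.eq_zero_or_pos q with h | h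
  · subst h; simp
  · have h0 : (0 : ℝ) < q := by exact_mod_cast h
    rw [div_le_one h0]
    have := Real.log_le_sub_one_of_pos h0
    linarith

/-- the sum of `1 / (q log q)` over the primes is bounded -/
lemma inv_log_sum : ∃ C : ℝ, 0 < C ∧ ∀ T : Finset ℕ, (∀ q ∈ T, q.Prime) →
    ∑ q ∈ T, 1 / ((q : ℝ) * Real.log q) ≤ C := by
  obtain ⟨C, hC, h⟩ := count_primes
  have hl2 : 0 < Real.log 2 := Real.log_pos (by norm_num)
  refine ⟨2 * C / Real.log 2 ^ 2, by positivity, fun T hT => ?_⟩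
  classical
  set M := T.sup id + 1 with hM
  have hmap : ∀ q ∈ T, Nat.log 2 q ∈ Ico 1 (M + 1) := by
    intro q hq
    rw [mem_Ico]
    have h2 : 2 ≤ q := (hT q hq).two_le
    have h3 : q ≤ T.sup id := Finset.le_sup (f := id) hq
    refine ⟨Nat.log_pos (by norm_num) h2, ?_⟩
    have := Nat.log_le_self 2 q
    omega
  rw [← Finset.sum_fiberwise_of_maps_to hmap]
  have hk : ∀ k ∈ Ico 1 (M + 1), ∑ q ∈ T.filter (fun q => Nat.log 2 q = k), 1 / ((q : ℝ) * Real.log q) ≤
      2 * C / Real.log 2 ^ 2 * (1 / (k : ℝ) - 1 / ((k : ℝ) + 1)) := by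
    intro k hk
    rw [mem_Ico] at hk
    have hk0 : (1 : ℝ) ≤ k := by exact_mod_cast hk.1
    set D := T.filter (fun q => Nat.log 2 q = k) with hD
    have hDm : ∀ q ∈ D, q.Prime ∧ 2 ^ k ≤ q ∧ q < 2 ^ (k + 1) := by
      intro q hq
      rw [hD, mem_filter] at hq
      have hp := hT q hq.1
      refine ⟨hp, ?_, ?_⟩
      · rw [← hq.2]; exact Nat.pow_log_le_self 2 hp.ne_zero
      · rw [← hq.2]; exact Nat.lt_pow_succ_log_self (by norm_num) q
    have hcard := h (2 ^ (k + 1)) (by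
      calc 2 = 2 ^ 1 := by norm_num
        _ ≤ 2 ^ (k + 1) := Nat.pow_le_pow_right (by norm_num) (by omega)) D
      (fun q hq => ⟨(hDm q hq).1, (hDm q hq).2.2⟩)
    have hterm : ∀ q ∈ D, 1 / ((q : ℝ) * Real.log q) ≤ 1 / ((2 : ℝ) ^ k * (k * Real.log 2)) := by
      intro q hq
      have h1 : ((2 ^ k : ℕ) : ℝ) ≤ q := by exact_mod_cast (hDm q hq).2.1
      push_cast at h1
      have h2 : (k : ℝ) * Real.log 2 ≤ Real.log q := by
        rw [← Real.log_pow]
        exact Real.log_le_log (by positivity) h1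
      refine one_div_le_one_div_of_le (by positivity) ?_
      exact mul_le_mul h1 h2 (by positivity) (by positivity)
    calc ∑ q ∈ D, 1 / ((q : ℝ) * Real.log q) ≤ ∑ q ∈ D, 1 / ((2 : ℝ) ^ k * (k * Real.log 2)) :=
          Finset.sum_le_sum hterm
      _ = D.card * (1 / ((2 : ℝ) ^ k * (k * Real.log 2))) := by
          rw [Finset.sum_const, nsmul_eq_mul]
      _ ≤ (C * ((2 ^ (k + 1) : ℕ) : ℝ) / Real.log ((2 ^ (k + 1) : ℕ) : ℝ)) *
          (1 / ((2 : ℝ) ^ k * (k * Real.log 2))) := by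
          exact mul_le_mul_of_nonneg_right hcard (by positivity)
      _ = _ := by
          push_cast
          rw [Real.log_pow]
          push_cast
          field_simp
          ring
  refine (Finset.sum_le_sum hk).trans ?_
  rw [← Finset.mul_sum]
  have htel : ∑ k ∈ Ico 1 (M + 1), (1 / (k : ℝ) - 1 / ((k : ℝ) + 1)) ≤ 1 := by
    have h1 : ∀ N : ℕ, ∑ k ∈ Ico 1 (N + 1), (1 / (k : ℝ) - 1 / ((k : ℝ) + 1)) = 1 - 1 / ((N : ℝ) + 1) := by
      intro N
      induction N with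
      | zero => simp
      | succ N ih =>
        rw [Finset.sum_Ico_succ_top (by omega), ih]
        push_cast
        ring
    rw [h1]
    have : 0 ≤ 1 / ((M : ℝ) + 1) := by positivity
    linarith
  have h0 : 0 ≤ 2 * C / Real.log 2 ^ 2 := by positivity
  nlinarith

/-- the sum of the reciprocals is at most the square root of the sum of the weights -/
lemma inv_sum_le : ∃ C : ℝ, 0 < C ∧ ∀ T : Finset ℕ, (∀ q ∈ T, q.Prime) →
    ∑ q ∈ T, 1 / (q : ℝ) ≤ C * Real.sqrt (∑ q ∈ T, wt q) := by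
  obtain ⟨C, hC, h⟩ := inv_log_sum
  refine ⟨Real.sqrt C, by positivity, fun T hT => ?_⟩
  have h1 := Finset.sum_mul_sq_le_sq_mul_sq T (fun q => Real.sqrt (wt q))
    (fun q => Real.sqrt (1 / ((q : ℝ) * Real.log q)))
  have h2 : ∀ q ∈ T, Real.sqrt (wt q) * Real.sqrt (1 / ((q : ℝ) * Real.log q)) = 1 / (q : ℝ) := by
    intro q hq
    have hq2 : (2 : ℝ) ≤ q := by exact_mod_cast (hT q hq).two_le
    have hlq : 0 < Real.log q := Real.log_pos (by linarith)
    rw [← Real.sqrt_mul (wt_nonneg q)]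
    have : wt q * (1 / ((q : ℝ) * Real.log q)) = (1 / (q : ℝ)) ^ 2 := by
      unfold wt
      field_simp
    rw [this, Real.sqrt_sq (by positivity)]
  have h3 : ∑ q ∈ T, Real.sqrt (wt q) ^ 2 = ∑ q ∈ T, wt q :=
    Finset.sum_congr rfl fun q _ => Real.sq_sqrt (wt_nonneg q)
  have h4 : ∑ q ∈ T, Real.sqrt (1 / ((q : ℝ) * Real.log q)) ^ 2 ≤ C := by
    refine le_trans (le_of_eq ?_) (h T hT)
    refine Finset.sum_congr rfl fun q hq => Real.sq_sqrt ?_
    have := Real.log_natCast_nonneg q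
    positivity
  rw [Finset.sum_congr rfl h2, h3] at h1
  have hs : 0 ≤ ∑ q ∈ T, wt q := Finset.sum_nonneg fun q _ => wt_nonneg q
  have h5 : (∑ q ∈ T, 1 / (q : ℝ)) ^ 2 ≤ (Real.sqrt C * Real.sqrt (∑ q ∈ T, wt q)) ^ 2 := by
    rw [mul_pow, Real.sq_sqrt hC.le, Real.sq_sqrt hs]
    calc (∑ q ∈ T, 1 / (q : ℝ)) ^ 2 ≤ (∑ q ∈ T, wt q) * _ := h1
      _ ≤ (∑ q ∈ T, wt q) * C := mul_le_mul_of_nonneg_left h4 hs
      _ = _ := mul_comm _ _
  exact abs_le_of_sq_le_sq h5 (by positivity) |>.trans' (le_abs_self _)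

end Pool.Agent.TH888.R
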