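import Mathlib
import Pool.Agent.TH888.R.Blk
import Pool.Agent.TH888.R.Inv
import Pool.Agent.TH888.R.Row
import Pool.Agent.W66.SB

set_option autoImplicit false

/-!
# Systems of nearly independent events indexed by the primes
-/

namespace Pool.Agent.TH888.R

open Finset Filter Topology MeasureTheory
open Pool.Agent.W66S (moment_rows mid_weights)

variable {Ω : Type*} [MeasurableSpace Ω]

/-- `f q` is the indicator of the `q`-th event, `m q` its local mean, close to `c wt q`, and the row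
sums of the correlation matrix are small. -/
structure Sys (μ : Measure Ω) (f m : ℕ → Ω → ℝ) (c : Ω → ℝ) : Prop where
  fm : ∀ q, Measurable (f q)
  mm : ∀ q, Measurable (m q)
  f01 : ∀ q x, f q x = 0 ∨ f q x = 1
  m0 : ∀ q x, 0 ≤ m q x
  m1 : ∀ q x, m q x ≤ 1
  mean : ∃ K : ℝ, 0 ≤ K ∧ ∃ P : ℕ, ∀ᵐ x ∂μ, ∀ q ≥ P, q.Prime → |m q x - c x * wt q| ≤ K * (1 / q)
  cb : ∃ c0 c1 : ℝ, 0 < c0 ∧ ∀ᵐ x ∂μ, c0 ≤ c x ∧ c x ≤ c1
  row : ∃ κ C : ℝ, 0 < κ ∧ 0 < C ∧ ∃ P : ℕ, 3 ≤ P ∧
    (∀ q ≥ P, q.Prime → ∫ x, (f q x - m q x) ^ 2 ∂μ ≤ C * wt q) ∧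
    ∀ q ≥ P, q.Prime → ∀ T : Finset ℕ, (∀ p ∈ T, p.Prime ∧ P ≤ p ∧ p < q) →
      ∑ p ∈ T, |∫ x, (f p x - m p x) * (f q x - m q x) ∂μ| ≤
        C * (wt q * (1 + ∑ p ∈ T.filter (fun p : ℕ => κ * q / Real.log q < (p : ℝ)), wt p))
  one : ∃ K : ℝ, 0 ≤ K ∧ ∃ P : ℕ, ∀ q ≥ P, q.Prime → ∫ x, f q x ∂μ ≤ K * wt q

section

variable {μ : Measure Ω} [IsFiniteMeasure μ] {f m : ℕ → Ω → ℝ} {c : Ω → ℝ}

lemma Sys.f0 (h : Sys μ f m c) (q : ℕ) (x : Ω) : 0 ≤ f q x := by
  rcases h.f01 q x with h1 | h1 <;> rw [h1]; norm_num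

lemma Sys.f1 (h : Sys μ f m c) (q : ℕ) (x : Ω) : f q x ≤ 1 := by
  rcases h.f01 q x with h1 | h1 <;> rw [h1]; norm_num

lemma Sys.hb (h : Sys μ f m c) (q : ℕ) (x : Ω) : |f q x - m q x| ≤ 1 := by
  rw [abs_le]
  constructor <;> linarith [h.f0 q x, h.f1 q x, h.m0 q x, h.m1 q x]

open Classical in
/-- the basic fluctuation bound -/
lemma Sys.core (h : Sys μ f m c) {κ C : ℝ} {P : ℕ} (hC : 0 < C)
    (hdiag : ∀ q ≥ P, q.Prime → ∫ x, (f q x - m q x) ^ 2 ∂μ ≤ C * wt q)
    (hrow : ∀ q ≥ P, q.Prime → ∀ T : Finset ℕ, (∀ p ∈ T, p.Prime ∧ P ≤ p ∧ p < q) →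
      ∑ p ∈ T, |∫ x, (f p x - m p x) * (f q x - m q x) ∂μ| ≤
        C * (wt q * (1 + ∑ p ∈ T.filter (fun p : ℕ => κ * q / Real.log q < (p : ℝ)), wt p)))
    {Km : ℝ} (hKm : 0 ≤ Km) (hmK : ∀ᵐ x ∂μ, ∀ q ≥ P, q.Prime → m q x ≤ Km * wt q)
    (S : Set ℕ) (lam : ℕ → ℝ) (hl1 : ∀ q, 1 ≤ lam q) {B0 : ℝ} (hB0 : 0 ≤ B0)
    (hB : ∀ q, q.Prime → wt q * lam q ≤ B0)
    (hlam : ∀ q ≥ P, q.Prime → q ∈ S → ∀ T : Finset ℕ,
      (∀ p ∈ T, p.Prime ∧ P ≤ p ∧ p < q ∧ p ∈ S ∧ κ * q / Real.log q < (p : ℝ)) →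
      ∑ p ∈ T, wt p ≤ lam q)
    (hdiv : Tendsto (fun n => ∑ q ∈ range n, if q ∈ S ∧ q.Prime ∧ P ≤ q then wt q * lam q else 0)
      atTop atTop) :
    ∀ᵐ x ∂μ, ∃ B : ℝ, 0 ≤ B ∧ ∀ n : ℕ,
      |∑ q ∈ range n, (if q ∈ S ∧ q.Prime ∧ P ≤ q then f q x - m q x else 0)| ≤
      B * gr (∑ q ∈ range n, if q ∈ S ∧ q.Prime ∧ P ≤ q then wt q * lam q else 0) := by
  set cd : ℕ → Prop := fun q => q ∈ S ∧ q.Prime ∧ P ≤ q with hcd
  have hl0 : ∀ q, 0 ≤ lam q := fun q => by linarith [hl1 q]
  have key := blocks (μ := μ) (f := fun q x => if cd q then f q x else 0)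
    (m := fun q x => if cd q then m q x else 0) (φ := fun q => if cd q then wt q * lam q else 0)
    (B0 := B0) (K := Km) (C := 5 * C)
    (fun q => by
      split_ifs
      · exact mul_nonneg (wt_nonneg q) (hl0 q)
      · exact le_rfl)
    (fun q => by
      split_ifs with hq
      · exact hB q hq.2.1
      · exact hB0)
    hdiv hKm (by positivity)
    (fun q => by
      by_cases hq : cd q
      · simp only [if_pos hq]; exact h.fm q
      · simp only [if_neg hq]; exact measurable_const)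
    (fun q => by
      by_cases hq : cd q
      · simp only [if_pos hq]; exact h.mm q
      · simp only [if_neg hq]; exact measurable_const)
    (fun q x => by
      split_ifs
      · exact h.f0 q x
      · exact le_rfl)
    (fun q x => by
      split_ifs
      · exact h.m0 q x
      · exact le_rfl)
    (fun q x => by
      split_ifs
      · exact h.hb q x
      · norm_num)
    (by
      filter_upwards [hmK] with x hx q
      split_ifs with hq
      · refine (hx q hq.2.2 hq.2.1).trans ?_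
        refine mul_le_mul_of_nonneg_left ?_ hKm
        nlinarith [wt_nonneg q, hl1 q]
      · rw [mul_zero])
    (by
      intro a b hab
      set T := (Ico a b).filter cd with hT
      have e1 : ∀ x, ∑ q ∈ Ico a b, ((if cd q then f q x else 0) - if cd q then m q x else 0) =
          ∑ q ∈ T, (f q x - m q x) := by
        intro x
        rw [hT, Finset.sum_filter]
        refine Finset.sum_congr rfl fun q _ => ?_
        split_ifs
        · rfl
        · norm_num
      have e2 : ∑ q ∈ Ico a b, (if cd q then wt q * lam q else 0) = ∑ q ∈ T, wt q * lam q := by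
        rw [hT, Finset.sum_filter]
      simp only [e1, e2]
      have hGm : ∀ q, Measurable (fun x => f q x - m q x) := fun q => (h.fm q).sub (h.mm q)
      refine (moment_rows (μ := μ) (G := fun q x => f q x - m q x) hGm h.hb T).trans ?_
      rw [Finset.mul_sum]
      refine Finset.sum_le_sum fun q hq => ?_
      rw [hT, mem_filter] at hq
      have hqc := hq.2
      have h1 := hdiag q hqc.2.2 hqc.2.1
      have h2 := hrow q hqc.2.2 hqc.2.1 (T.filter (fun p => p < q)) (by
        intro p hp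
        rw [mem_filter, hT, mem_filter] at hp
        exact ⟨hp.1.2.2.1, hp.1.2.2.2, hp.2⟩)
      have h3 := hlam q hqc.2.2 hqc.2.1 hqc.1
        ((T.filter (fun p => p < q)).filter (fun p : ℕ => κ * q / Real.log q < (p : ℝ))) (by
          intro p hp
          rw [mem_filter, mem_filter, hT, mem_filter] at hp
          exact ⟨hp.1.1.2.2.1, hp.1.1.2.2.2, hp.1.2, hp.1.1.2.1, hp.2⟩)
      have hw := wt_nonneg q
      have h4 : C * (wt q * (1 + ∑ p ∈ (T.filter (fun p => p < q)).filter
          (fun p : ℕ => κ * q / Real.log q < (p : ℝ)), wt p)) ≤ C * (wt q * (1 + lam q)) := by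
        gcongr
      have h5 := hl1 q
      have h6 : C * wt q ≤ C * (wt q * lam q) := by
        refine mul_le_mul_of_nonneg_left ?_ hC.le
        nlinarith
      nlinarith)
  filter_upwards [key] with x hx
  obtain ⟨B, hB1, hB2⟩ := hx
  refine ⟨B, hB1, fun n => ?_⟩
  have := hB2 n
  refine le_trans (le_of_eq ?_) this
  congr 1
  refine Finset.sum_congr rfl fun q _ => ?_
  simp only [hcd]
  split_ifs
  · rfl
  · norm_num

end

open Classical in
/-- the sum of the weights of the primes `q ≤ n` in `S` -/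
noncomputable def VS (S : Set ℕ) (n : ℕ) : ℝ :=
  ∑ q ∈ range (n + 1), if q ∈ S ∧ q.Prime then wt q else 0

open Classical in
/-- the number of the events with index a prime `q ≤ n` in `S` -/
noncomputable def FS (f : ℕ → Ω → ℝ) (S : Set ℕ) (n : ℕ) (x : Ω) : ℝ :=
  ∑ q ∈ range (n + 1), if q ∈ S ∧ q.Prime then f q x else 0

lemma VS_mono (S : Set ℕ) : Monotone (VS S) := by
  intro a b hab
  unfold VS
  refine Finset.sum_le_sum_of_subset_of_nonneg (Finset.range_mono (by omega)) fun q _ _ => ?_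
  split_ifs
  · exact wt_nonneg q
  · exact le_rfl

lemma VS_nonneg (S : Set ℕ) (n : ℕ) : 0 ≤ VS S n := by
  unfold VS
  refine Finset.sum_nonneg fun q _ => ?_
  split_ifs
  · exact wt_nonneg q
  · exact le_rfl

lemma loglog_nonneg {q : ℕ} (hq : 3 ≤ q) : 0 ≤ Real.log (Real.log q) := by
  have h3 : (3 : ℝ) ≤ q := by exact_mod_cast hq
  refine Real.log_nonneg ?_
  rw [Real.le_log_iff_exp_le (by linarith)]
  have := Real.exp_one_lt_d9
  linarith

open Classical in
/-- the tail of the divergent sum still diverges -/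
lemma div_tail {S : Set ℕ} (hdiv : Tendsto (VS S) atTop atTop) (P : ℕ) (lam : ℕ → ℝ)
    (hl1 : ∀ q, 1 ≤ lam q) :
    Tendsto (fun n => ∑ q ∈ range n, if q ∈ S ∧ q.Prime ∧ P ≤ q then wt q * lam q else 0)
      atTop atTop := by
  rw [← tendsto_add_atTop_iff_nat 1]
  refine tendsto_atTop_mono (fun n => ?_) (tendsto_atTop_add_const_right _ (-(P : ℝ)) hdiv)
  unfold VS
  have h1 : ∑ q ∈ range (n + 1), (if q ∈ S ∧ q.Prime then wt q else 0) ≤
      ∑ q ∈ range (n + 1), ((if q ∈ S ∧ q.Prime ∧ P ≤ q then wt q * lam q else 0) +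
        if q < P then (1 : ℝ) else 0) := by
    refine Finset.sum_le_sum fun q _ => ?_
    have hw := wt_nonneg q
    have hw1 := wt_le_one q
    by_cases hq : q ∈ S ∧ q.Prime
    · rw [if_pos hq]
      by_cases hP : P ≤ q
      · rw [if_pos ⟨hq.1, hq.2, hP⟩, if_neg (by omega)]
        have := hl1 q
        nlinarith
      · rw [if_neg (fun h => hP h.2.2), if_pos (by omega)]
        linarith
    · rw [if_neg hq, if_neg (fun h => hq ⟨h.1, h.2.1⟩)]
      split_ifs <;> norm_num
  have h2 : ∑ q ∈ range (n + 1), (if q < P then (1 : ℝ) else 0) ≤ P := by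
    rw [Finset.sum_ite, Finset.sum_const_zero, add_zero, Finset.sum_const, nsmul_eq_mul, mul_one]
    have : ((range (n + 1)).filter (fun q => q < P)).card ≤ P := by
      calc _ ≤ (range P).card := Finset.card_le_card fun q hq => by
              rw [mem_filter] at hq
              exact mem_range.2 hq.2
        _ = P := Finset.card_range P
    exact_mod_cast this
  rw [Finset.sum_add_distrib] at h1
  linarith

section

variable {μ : Measure Ω} [IsFiniteMeasure μ] {f m : ℕ → Ω → ℝ} {c : Ω → ℝ}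

lemma sqrt_le_gr {x : ℝ} (hx : 0 ≤ x) : Real.sqrt x ≤ gr x := by
  unfold gr
  have h1 : Real.sqrt x ≤ Real.sqrt (1 + x) := Real.sqrt_le_sqrt (by linarith)
  have h2 : 0 ≤ Real.log (1 + x) := Real.log_nonneg (by linarith)
  have h3 : 1 ≤ (1 + Real.log (1 + x)) ^ 2 := by nlinarith
  have h4 := Real.sqrt_nonneg (1 + x)
  nlinarith

open Classical in
/-- **The law with error term for a set of primes.** -/
theorem Sys.law (h : Sys μ f m c) (S : Set ℕ) (hdiv : Tendsto (VS S) atTop atTop) :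
    ∀ᵐ x ∂μ, ∃ B : ℝ, 0 ≤ B ∧ ∀ n : ℕ, 3 ≤ n → |FS f S n x - c x * VS S n| ≤
      B * gr (VS S n * (1 + Real.log (Real.log n))) := by
  obtain ⟨κ, C, hκ, hC, P1, hP13, hdiag, hrow⟩ := h.row
  obtain ⟨Km, hKm, P2, hmean⟩ := h.mean
  obtain ⟨c0, c1, hc0, hcb⟩ := h.cb
  obtain ⟨C2, hC2, hmid⟩ := mid_weights hκ
  obtain ⟨P3, hP3⟩ := eventually_atTop.1 hmid
  obtain ⟨C3, hC3, hinv⟩ := inv_sum_le
  set P := P1 + P2 + P3 with hP
  set lam : ℕ → ℝ := fun q => 1 + C2 * |1 + Real.log (Real.log q)| with hlamd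
  have hl1 : ∀ q, 1 ≤ lam q := fun q => by
    have : 0 ≤ C2 * |1 + Real.log (Real.log q)| := by positivity
    simp only [hlamd]
    linarith
  have hwB : ∀ q : ℕ, q.Prime → wt q * lam q ≤ 1 + 6 * C2 := by
    intro q hq
    have hq2 : (2 : ℝ) ≤ q := by exact_mod_cast hq.two_le
    have hq0 : (0 : ℝ) < q := by linarith
    have hl2 : Real.log 2 ≤ Real.log q := Real.log_le_log (by norm_num) hq2
    have h2 := Real.log_two_gt_d9
    set u := Real.log q with hu
    have hu0 : 0 < u := by linarith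
    have h3 : |1 + Real.log u| ≤ 2 + u := by
      have h4 := Real.log_le_sub_one_of_pos hu0
      have h5 := Real.one_sub_inv_le_log_of_pos hu0
      have h6 : u⁻¹ ≤ 2 := by
        rw [inv_le_comm₀ hu0 (by norm_num)]
        linarith
      rw [abs_le]
      constructor <;> linarith
    have h7 : u ^ 2 ≤ 4 * q := by
      have h8 : u = 2 * Real.log (Real.sqrt q) := by
        rw [Real.log_sqrt hq0.le]; ring
      have h9 := Real.log_le_sub_one_of_pos (Real.sqrt_pos.2 hq0)
      have h10 : u ≤ 2 * Real.sqrt q := by linarith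
      calc u ^ 2 ≤ (2 * Real.sqrt q) ^ 2 := pow_le_pow_left₀ hu0.le h10 2
        _ = 4 * q := by rw [mul_pow, Real.sq_sqrt hq0.le]; norm_num
    have h11 : wt q ≤ 1 := wt_le_one q
    have h12 : wt q * u ≤ 4 := by
      unfold wt
      rw [← hu, div_mul_eq_mul_div, div_le_iff₀ hq0]
      nlinarith
    have hw := wt_nonneg q
    simp only [hlamd]
    rw [← hu]
    calc wt q * (1 + C2 * |1 + Real.log u|) ≤ wt q * (1 + C2 * (2 + u)) := by gcongr
      _ = wt q + C2 * (2 * wt q + wt q * u) := by ring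
      _ ≤ 1 + C2 * (2 * 1 + 4) := by gcongr
      _ = _ := by ring
  have hmK : ∀ᵐ x ∂μ, ∀ q ≥ P, q.Prime → m q x ≤ (|c1| + Km) * wt q := by
    filter_upwards [hmean, hcb] with x hx hc q hq hqp
    have h1 := (abs_le.1 (hx q (by omega) hqp)).2
    have hq3 : (3 : ℝ) ≤ q := by exact_mod_cast (by omega : 3 ≤ q)
    have h2 : 1 / (q : ℝ) ≤ wt q := by
      unfold wt
      refine div_le_div_of_nonneg_right ?_ (by linarith)
      rw [Real.le_log_iff_exp_le (by linarith)]
      have := Real.exp_one_lt_d9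
      linarith
    have h3 : c x ≤ |c1| := hc.2.trans (le_abs_self _)
    have hw := wt_nonneg q
    nlinarith [mul_le_mul_of_nonneg_left h2 hKm, mul_le_mul_of_nonneg_right h3 hw]
  have key := h.core (κ := κ) (C := C) (P := P) hC
    (fun q hq hqp => hdiag q (by omega) hqp)
    (fun q hq hqp T hT => hrow q (by omega) hqp T fun p hp => by
      obtain ⟨h1, h2, h3⟩ := hT p hp
      exact ⟨h1, by omega, h3⟩)
    (Km := |c1| + Km) (by positivity) hmK S lam hl1 (B0 := 1 + 6 * C2) (by positivity) hwB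
    (fun q hq hqp _ T hT => by
      have h1 := hP3 q (by omega) T (fun p hp => by
        obtain ⟨h1, _, h3, _, h5⟩ := hT p hp
        exact ⟨h1, h3.le, h5⟩)
      refine le_trans h1 ?_
      have h2 := le_abs_self (1 + Real.log (Real.log q))
      have h3 : C2 * (1 + Real.log (Real.log q)) ≤ C2 * |1 + Real.log (Real.log q)| := by gcongr
      simp only [hlamd]
      linarith)
    (div_tail hdiv P lam hl1)
  filter_upwards [key, hmean, hcb] with x hx hmx hcx
  obtain ⟨B, hB, hBn⟩ := hx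
  refine ⟨B * (1 + C2) ^ 3 + Km * C3 + P * (1 + |c x|), by positivity, fun n hn => ?_⟩
  set V := VS S n with hV
  have hV0 : 0 ≤ V := VS_nonneg S n
  have hll : 0 ≤ Real.log (Real.log n) := loglog_nonneg hn
  set v := V * (1 + Real.log (Real.log n)) with hv
  have hv0 : 0 ≤ v := by positivity
  have hVv : V ≤ v := by rw [hv]; nlinarith
  -- the decomposition
  set cd : ℕ → Prop := fun q => q ∈ S ∧ q.Prime ∧ P ≤ q with hcd
  have hdec : FS f S n x - c x * V =
      (∑ q ∈ range (n + 1), if q ∈ S ∧ q.Prime ∧ P ≤ q then f q x - m q x else 0) +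
      (∑ q ∈ range (n + 1), if q ∈ S ∧ q.Prime ∧ P ≤ q then m q x - c x * wt q else 0) +
      (∑ q ∈ range (n + 1), if q ∈ S ∧ q.Prime ∧ q < P then f q x - c x * wt q else 0) := by
    rw [hV]
    unfold FS VS
    rw [Finset.mul_sum, ← Finset.sum_sub_distrib, ← Finset.sum_add_distrib, ← Finset.sum_add_distrib]
    refine Finset.sum_congr rfl fun q _ => ?_
    by_cases h1 : q ∈ S ∧ q.Prime
    · by_cases h2 : P ≤ q
      · rw [if_pos h1, if_pos h1, if_pos ⟨h1.1, h1.2, h2⟩, if_pos ⟨h1.1, h1.2, h2⟩,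
          if_neg (fun h => by omega)]
        ring
      · rw [if_pos h1, if_pos h1, if_neg (fun h => h2 h.2.2), if_neg (fun h => h2 h.2.2),
          if_pos ⟨h1.1, h1.2, by omega⟩]
        ring
    · rw [if_neg h1, if_neg h1, if_neg (fun h => h1 ⟨h.1, h.2.1⟩), if_neg (fun h => h1 ⟨h.1, h.2.1⟩),
        if_neg (fun h => h1 ⟨h.1, h.2.1⟩)]
      ring
  have hA : |∑ q ∈ range (n + 1), if q ∈ S ∧ q.Prime ∧ P ≤ q then f q x - m q x else 0| ≤
      B * (1 + C2) ^ 3 * gr v := by
    refine (hBn (n + 1)).trans ?_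
    rw [mul_assoc]
    refine mul_le_mul_of_nonneg_left ?_ hB
    have h1 : ∑ q ∈ range (n + 1), (if q ∈ S ∧ q.Prime ∧ P ≤ q then wt q * lam q else 0) ≤
        (1 + C2) * v := by
      rw [hv, hV]
      unfold VS
      rw [Finset.sum_mul, Finset.mul_sum]
      refine Finset.sum_le_sum fun q hq => ?_
      rw [mem_range] at hq
      have hw := wt_nonneg q
      by_cases h2 : q ∈ S ∧ q.Prime ∧ P ≤ q
      · rw [if_pos h2, if_pos ⟨h2.1, h2.2.1⟩]
        have hq3 : 3 ≤ q := by have := h2.2.2; omega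
        have h3 := loglog_nonneg hq3
        have h4 : Real.log (Real.log q) ≤ Real.log (Real.log n) := by
          have hq3' : (3 : ℝ) ≤ q := by exact_mod_cast hq3
          have h5 : 0 < Real.log q := Real.log_pos (by linarith)
          refine Real.log_le_log h5 (Real.log_le_log (by linarith) ?_)
          exact_mod_cast (by omega : q ≤ n)
        simp only [hlamd]
        rw [abs_of_nonneg (by linarith)]
        have h6 : 1 + C2 * (1 + Real.log (Real.log q)) ≤ (1 + C2) * (1 + Real.log (Real.log n)) := by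
          nlinarith
        calc wt q * (1 + C2 * (1 + Real.log (Real.log q))) ≤
              wt q * ((1 + C2) * (1 + Real.log (Real.log n))) := mul_le_mul_of_nonneg_left h6 hw
          _ = _ := by ring
      · rw [if_neg h2]
        have : 0 ≤ (if q ∈ S ∧ q.Prime then wt q else 0) := by
          split_ifs
          · exact hw
          · exact le_rfl
        positivity
    have h2 : 0 ≤ ∑ q ∈ range (n + 1), (if q ∈ S ∧ q.Prime ∧ P ≤ q then wt q * lam q else 0) := by
      refine Finset.sum_nonneg fun q _ => ?_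
      split_ifs
      · exact mul_nonneg (wt_nonneg q) (by linarith [hl1 q])
      · exact le_rfl
    exact gr_le hv0 (by linarith) h2 (by nlinarith)
  have hBd : |∑ q ∈ range (n + 1), if q ∈ S ∧ q.Prime ∧ P ≤ q then m q x - c x * wt q else 0| ≤
      Km * C3 * gr v := by
    set T := (range (n + 1)).filter (fun q => q ∈ S ∧ q.Prime ∧ P ≤ q) with hT
    have h1 : ∑ q ∈ T, wt q ≤ V := by
      rw [hV]
      unfold VS
      rw [hT, Finset.sum_filter]
      refine Finset.sum_le_sum fun q _ => ?_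
      by_cases h2 : q ∈ S ∧ q.Prime ∧ P ≤ q
      · rw [if_pos h2, if_pos ⟨h2.1, h2.2.1⟩]
      · rw [if_neg h2]
        split_ifs
        · exact wt_nonneg q
        · exact le_rfl
    rw [← Finset.sum_filter]
    calc |∑ q ∈ T, (m q x - c x * wt q)| ≤ ∑ q ∈ T, |m q x - c x * wt q| :=
          Finset.abs_sum_le_sum_abs _ _
      _ ≤ ∑ q ∈ T, Km * (1 / (q : ℝ)) := by
          refine Finset.sum_le_sum fun q hq => ?_
          rw [hT, mem_filter] at hq
          have := hq.2.2.2
          exact hmx q (by omega) hq.2.2.1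
      _ = Km * ∑ q ∈ T, 1 / (q : ℝ) := by rw [Finset.mul_sum]
      _ ≤ Km * (C3 * Real.sqrt (∑ q ∈ T, wt q)) := by
          refine mul_le_mul_of_nonneg_left (hinv T fun q hq => ?_) hKm
          rw [hT, mem_filter] at hq
          exact hq.2.2.1
      _ ≤ Km * (C3 * gr v) := by
          have h3 : Real.sqrt (∑ q ∈ T, wt q) ≤ gr v :=
            (Real.sqrt_le_sqrt (h1.trans hVv)).trans (sqrt_le_gr hv0)
          gcongr
      _ = _ := by ring
  have hCd : |∑ q ∈ range (n + 1), if q ∈ S ∧ q.Prime ∧ q < P then f q x - c x * wt q else 0| ≤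
      P * (1 + |c x|) * gr v := by
    have h1 : ∑ q ∈ range (n + 1), |if q ∈ S ∧ q.Prime ∧ q < P then f q x - c x * wt q else 0| ≤
        ∑ q ∈ range (n + 1), if q < P then (1 + |c x|) else 0 := by
      refine Finset.sum_le_sum fun q _ => ?_
      split_ifs with h2 h3 h3
      · refine (abs_sub _ _).trans ?_
        rw [abs_of_nonneg (h.f0 q x), abs_mul, abs_of_nonneg (wt_nonneg q)]
        have := h.f1 q x
        have := wt_le_one q
        have := abs_nonneg (c x)
        nlinarith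
      · exact absurd h2.2.2 h3
      · rw [abs_zero]; positivity
      · rw [abs_zero]
    have h2 : ∑ q ∈ range (n + 1), (if q < P then (1 + |c x|) else 0) ≤ P * (1 + |c x|) := by
      rw [Finset.sum_ite, Finset.sum_const_zero, add_zero, Finset.sum_const, nsmul_eq_mul]
      have : ((range (n + 1)).filter (fun q => q < P)).card ≤ P := by
        calc _ ≤ (range P).card := Finset.card_le_card fun q hq => by
                rw [mem_filter] at hq
                exact mem_range.2 hq.2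
          _ = P := Finset.card_range P
      refine mul_le_mul_of_nonneg_right ?_ (by positivity)
      exact_mod_cast this
    have h3 := one_le_gr hv0
    have h4 : (0 : ℝ) ≤ P * (1 + |c x|) := by positivity
    calc _ ≤ _ := (Finset.abs_sum_le_sum_abs _ _).trans (h1.trans h2)
      _ ≤ _ := by nlinarith
  rw [hdec]
  have h1 := abs_add_le
    ((∑ q ∈ range (n + 1), if q ∈ S ∧ q.Prime ∧ P ≤ q then f q x - m q x else 0) +
      (∑ q ∈ range (n + 1), if q ∈ S ∧ q.Prime ∧ P ≤ q then m q x - c x * wt q else 0))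
    (∑ q ∈ range (n + 1), if q ∈ S ∧ q.Prime ∧ q < P then f q x - c x * wt q else 0)
  have h2 := abs_add_le
    (∑ q ∈ range (n + 1), if q ∈ S ∧ q.Prime ∧ P ≤ q then f q x - m q x else 0)
    (∑ q ∈ range (n + 1), if q ∈ S ∧ q.Prime ∧ P ≤ q then m q x - c x * wt q else 0)
  calc _ ≤ B * (1 + C2) ^ 3 * gr v + Km * C3 * gr v + P * (1 + |c x|) * gr v := by linarith
    _ = _ := by ring

end

end Pool.Agent.TH888.R
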