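import Mathlib
import Pool.Agent.TH888.R.Dich
import Pool.Agent.Helper601.Mertens

set_option autoImplicit false

/-!
# From systems to counting functions
-/

namespace Pool.Agent.TH888.R

open Finset Filter Topology MeasureTheory Asymptotics
open Pool.Agent.H305R2 (roughPart log_nat_tendsto)

lemma loglog_tendsto : Tendsto (fun n : ℕ => Real.log (Real.log n)) atTop atTop :=
  Real.tendsto_log_atTop.comp log_nat_tendsto

/-- the error term for a set of primes -/
lemma gr_set {V : ℕ → ℝ} (hV : Tendsto V atTop atTop) : ∀ᶠ n : ℕ in atTop,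
    gr (V n * (1 + Real.log (Real.log n))) ≤
      64 * (Real.sqrt (V n * Real.log (Real.log n)) * (Real.log (V n * Real.log (Real.log n))) ^ 2) := by
  filter_upwards [hV.eventually_ge_atTop 4, loglog_tendsto.eventually_ge_atTop 1] with n h1 h2
  set L := Real.log (Real.log n) with hL
  set u := V n * L with hu
  have hu4 : 4 ≤ u := by rw [hu]; nlinarith
  have hlu : 1 ≤ Real.log u := by
    rw [Real.le_log_iff_exp_le (by linarith)]
    have := Real.exp_one_lt_d9
    linarith
  have h3 : 1 + V n * (1 + L) ≤ 3 * u := by rw [hu]; nlinarith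
  have h0 : 0 ≤ V n * (1 + L) := by positivity
  unfold gr
  have h4 : Real.sqrt (1 + V n * (1 + L)) ≤ 2 * Real.sqrt u := by
    rw [Real.sqrt_le_left (by positivity), mul_pow, Real.sq_sqrt (by linarith)]
    linarith
  have h5 : Real.log (1 + V n * (1 + L)) ≤ 2 + Real.log u := by
    have h6 := Real.log_le_log (by linarith) h3
    rw [Real.log_mul (by norm_num) (by linarith)] at h6
    have h7 := Real.log_le_sub_one_of_pos (show (0 : ℝ) < 3 by norm_num)
    linarith
  have h6 : 0 ≤ Real.log (1 + V n * (1 + L)) := Real.log_nonneg (by linarith)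
  calc Real.sqrt (1 + V n * (1 + L)) * (1 + Real.log (1 + V n * (1 + L))) ^ 2 ≤
        2 * Real.sqrt u * (4 * Real.log u) ^ 2 := by
        gcongr
        linarith
    _ = 32 * (Real.sqrt u * Real.log u ^ 2) := by ring
    _ ≤ _ := by
        have : 0 ≤ Real.sqrt u * Real.log u ^ 2 := by positivity
        linarith

/-- the error term for all primes -/
lemma gr_all {V : ℕ → ℝ} {C : ℝ} (hV0 : ∀ n, 0 ≤ V n) (hV : ∀ n : ℕ, 1 ≤ n → V n ≤ Real.log n + C) :
    ∀ᶠ n : ℕ in atTop, gr (V n * (1 + Real.log (Real.log n))) ≤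
      100 * (Real.sqrt (Real.log n) * (Real.log (Real.log n)) ^ ((5 : ℝ) / 2)) := by
  filter_upwards [log_nat_tendsto.eventually_ge_atTop (|C| + 4), loglog_tendsto.eventually_ge_atTop 2,
    eventually_ge_atTop 1] with n h1 h2 hn
  set l := Real.log n with hl
  set L := Real.log l with hL
  have hC := le_abs_self C
  have hC0 := abs_nonneg C
  have hVn := hV n hn
  have hVn0 := hV0 n
  have hV2 : V n ≤ 2 * l := by linarith
  have hl4 : 4 ≤ l := by linarith
  have h3 : V n * (1 + L) ≤ 2 * l * (1 + L) := mul_le_mul_of_nonneg_right hV2 (by linarith)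
  refine (gr_mono (by positivity) h3).trans ?_
  unfold gr
  have h4 : 1 + 2 * l * (1 + L) ≤ 4 * (l * L) := by nlinarith
  have hlL : 0 < l * L := by positivity
  have h5 : Real.sqrt (1 + 2 * l * (1 + L)) ≤ 2 * (Real.sqrt l * Real.sqrt L) := by
    rw [← Real.sqrt_mul (by linarith), Real.sqrt_le_left (by positivity), mul_pow,
      Real.sq_sqrt hlL.le]
    linarith
  have h6 : Real.log (1 + 2 * l * (1 + L)) ≤ 4 * L := by
    have h7 := Real.log_le_log (by positivity) h4
    rw [Real.log_mul (by norm_num) hlL.ne', Real.log_mul (by linarith) (by linarith)] at h7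
    have h8 := Real.log_le_sub_one_of_pos (show 0 < L by linarith)
    have h9 : Real.log 4 ≤ L := Real.log_le_log (by norm_num) hl4
    linarith
  have h7 : 0 ≤ Real.log (1 + 2 * l * (1 + L)) := Real.log_nonneg (by nlinarith)
  have h8 : L ^ ((5 : ℝ) / 2) = Real.sqrt L * L ^ 2 := by
    rw [Real.sqrt_eq_rpow, ← Real.rpow_natCast, ← Real.rpow_add (by linarith)]
    norm_num
  calc Real.sqrt (1 + 2 * l * (1 + L)) * (1 + Real.log (1 + 2 * l * (1 + L))) ^ 2 ≤
        2 * (Real.sqrt l * Real.sqrt L) * (5 * L) ^ 2 := by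
        gcongr
        linarith
    _ = 50 * (Real.sqrt l * (Real.sqrt L * L ^ 2)) := by ring
    _ ≤ _ := by
        rw [h8]
        have : 0 ≤ Real.sqrt l * (Real.sqrt L * L ^ 2) := by positivity
        linarith

open Classical in
lemma VS_univ (n : ℕ) : VS Set.univ n = ∑ p ∈ (Finset.Icc 1 n).filter Nat.Prime, Real.log p / (p : ℝ) := by
  unfold VS
  have e : range (n + 1) = insert 0 (Finset.Icc 1 n) := by
    ext p
    simp only [Finset.mem_range, Finset.mem_insert, Finset.mem_Icc]
    omega
  rw [e, Finset.sum_insert (by simp), Finset.sum_filter]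
  simp only [Set.mem_univ, true_and, wt, Nat.not_prime_zero, if_false, zero_add]

lemma VS_univ_bound : ∃ C : ℝ, 0 ≤ C ∧ ∀ n : ℕ, 1 ≤ n → |VS Set.univ n - Real.log n| ≤ C := by
  obtain ⟨C, hC⟩ := Pool.Agent.Helper601.Mertens.mertens_log
  exact ⟨C, (abs_nonneg _).trans (hC 1 le_rfl), fun n hn => by rw [VS_univ]; exact hC n hn⟩

lemma VS_univ_tendsto : Tendsto (VS Set.univ) atTop atTop := by
  obtain ⟨C, _, hC⟩ := VS_univ_bound
  refine tendsto_atTop_mono' _ (f₁ := fun n : ℕ => Real.log n + (-C)) ?_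
    (tendsto_atTop_add_const_right _ _ log_nat_tendsto)
  filter_upwards [eventually_ge_atTop 1] with n hn
  have := (abs_le.1 (hC n hn)).1
  linarith

/-- asymptotic form of the law for a set of primes -/
lemma bigO_set {F V : ℕ → ℝ} {c B : ℝ} (hB : 0 ≤ B) (hV : Tendsto V atTop atTop)
    (h : ∀ n : ℕ, 3 ≤ n → |F n - c * V n| ≤ B * gr (V n * (1 + Real.log (Real.log n)))) :
    (fun n : ℕ => F n - c * V n) =O[atTop] fun n : ℕ =>
      Real.sqrt (V n * Real.log (Real.log n)) * (Real.log (V n * Real.log (Real.log n))) ^ 2 := by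
  refine IsBigO.of_bound (64 * B) ?_
  filter_upwards [gr_set hV, eventually_ge_atTop 3] with n h1 h2
  rw [Real.norm_eq_abs, Real.norm_of_nonneg (by positivity)]
  calc |F n - c * V n| ≤ B * gr (V n * (1 + Real.log (Real.log n))) := h n h2
    _ ≤ B * _ := mul_le_mul_of_nonneg_left h1 hB
    _ = _ := by ring

/-- asymptotic form of the law for all primes -/
lemma bigO_all {F : ℕ → ℝ} {c B : ℝ} (hB : 0 ≤ B)
    (h : ∀ n : ℕ, 3 ≤ n → |F n - c * VS Set.univ n| ≤
      B * gr (VS Set.univ n * (1 + Real.log (Real.log n)))) :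
    (fun n : ℕ => F n - c * Real.log n) =O[atTop] fun n : ℕ =>
      Real.sqrt (Real.log n) * (Real.log (Real.log n)) ^ ((5 : ℝ) / 2) := by
  obtain ⟨C, hC0, hC⟩ := VS_univ_bound
  refine IsBigO.of_bound (100 * B + |c| * C) ?_
  filter_upwards [gr_all (C := C) (VS_nonneg Set.univ) (fun n hn => by
    have := (abs_le.1 (hC n hn)).2
    linarith), eventually_ge_atTop 3, log_nat_tendsto.eventually_ge_atTop 1,
    loglog_tendsto.eventually_ge_atTop 1] with n h1 h2 h3 h4
  set E := Real.sqrt (Real.log n) * (Real.log (Real.log n)) ^ ((5 : ℝ) / 2) with hE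
  have hE1 : 1 ≤ E := by
    have h5 : 1 ≤ Real.sqrt (Real.log n) := by rw [Real.one_le_sqrt]; exact h3
    have h6 : 1 ≤ (Real.log (Real.log n)) ^ ((5 : ℝ) / 2) := Real.one_le_rpow h4 (by norm_num)
    rw [hE]
    nlinarith
  rw [Real.norm_eq_abs, Real.norm_of_nonneg (by linarith)]
  have e : F n - c * Real.log n = (F n - c * VS Set.univ n) + c * (VS Set.univ n - Real.log n) := by ring
  rw [e]
  have h7 := h n h2
  have h8 := mul_le_mul_of_nonneg_left h1 hB
  have h9 : |c * (VS Set.univ n - Real.log n)| ≤ |c| * C := by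
    rw [abs_mul]
    exact mul_le_mul_of_nonneg_left (hC n (by omega)) (abs_nonneg c)
  have h10 := abs_add_le (F n - c * VS Set.univ n) (c * (VS Set.univ n - Real.log n))
  have h11 : |c| * C ≤ |c| * C * E := by
    have : 0 ≤ |c| * C := by positivity
    nlinarith
  nlinarith

open Classical in
/-- the number of primes `p ≤ n` in `S` for which the `p`-rough part of `s p` is prime -/
noncomputable def cS (S : Set ℕ) (s : ℕ → ℕ) (n : ℕ) : ℕ :=
  ((range (n + 1)).filter (fun p => p.Prime ∧ p ∈ S ∧ (roughPart p (s p)).Prime)).card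

/-- The law with error term and the dichotomy at one point, for the integers `s p`. -/
structure Pt (s : ℕ → ℕ) (c : ℝ) (S : Set ℕ) : Prop where
  law : Tendsto (VS S) atTop atTop → ∃ B : ℝ, 0 ≤ B ∧ ∀ n : ℕ, 3 ≤ n →
    |(cS S s n : ℝ) - c * VS S n| ≤ B * gr (VS S n * (1 + Real.log (Real.log n)))
  inf : Tendsto (VS S) atTop atTop → {p : ℕ | p.Prime ∧ p ∈ S ∧ (roughPart p (s p)).Prime}.Infinite
  fin : ¬ Tendsto (VS S) atTop atTop → {p : ℕ | p.Prime ∧ p ∈ S ∧ (roughPart p (s p)).Prime}.Finite

open Classical in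
/-- **From a system to the counting function.** -/
theorem Sys.pt {Ω : Type*} [MeasurableSpace Ω] {μ : Measure Ω} [IsFiniteMeasure μ] {f m : ℕ → Ω → ℝ}
    {c : Ω → ℝ} (h : Sys μ f m c) {s : Ω → ℕ → ℕ}
    (hs : ∀ᵐ x ∂μ, ∃ P : ℕ, ∀ p ≥ P, p.Prime → f p x = if (roughPart p (s x p)).Prime then 1 else 0)
    (S : Set ℕ) : ∀ᵐ x ∂μ, Pt (s x) (c x) S := by
  have hset : ∀ᵐ x ∂μ, ∃ P : ℕ, (∀ p : ℕ, P ≤ p → ((p ∈ S ∧ p.Prime ∧ f p x = 1) ↔
      (p.Prime ∧ p ∈ S ∧ (roughPart p (s x p)).Prime))) ∧
      ∀ n : ℕ, |(cS S (s x) n : ℝ) - FS f S n x| ≤ P := by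
    filter_upwards [hs] with x hx
    obtain ⟨P, hP⟩ := hx
    refine ⟨P, fun p hp => ?_, fun n => ?_⟩
    · constructor
      · rintro ⟨h1, h2, h3⟩
        refine ⟨h2, h1, ?_⟩
        rw [hP p hp h2] at h3
        by_contra h4
        rw [if_neg h4] at h3
        norm_num at h3
      · rintro ⟨h1, h2, h3⟩
        refine ⟨h2, h1, ?_⟩
        rw [hP p hp h1, if_pos h3]
    · have e1 : (cS S (s x) n : ℝ) = ∑ p ∈ range (n + 1),
          if p.Prime ∧ p ∈ S ∧ (roughPart p (s x p)).Prime then (1 : ℝ) else 0 := by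
        unfold cS
        rw [Finset.card_eq_sum_ones, Finset.sum_filter]
        push_cast
        rfl
      rw [e1]
      unfold FS
      rw [← Finset.sum_sub_distrib]
      have h1 : ∑ p ∈ range (n + 1), |(if p.Prime ∧ p ∈ S ∧ (roughPart p (s x p)).Prime then (1 : ℝ) else 0) -
          if p ∈ S ∧ p.Prime then f p x else 0| ≤ ∑ p ∈ range (n + 1), if p < P then (1 : ℝ) else 0 := by
        refine Finset.sum_le_sum fun p _ => ?_
        by_cases hp : P ≤ p
        · rw [if_neg (by omega : ¬ p < P)]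
          by_cases h2 : p ∈ S ∧ p.Prime
          · rw [if_pos h2, hP p hp h2.2]
            by_cases h3 : (roughPart p (s x p)).Prime
            · rw [if_pos ⟨h2.2, h2.1, h3⟩, if_pos h3]
              norm_num
            · rw [if_neg (fun h => h3 h.2.2), if_neg h3]
              norm_num
          · rw [if_neg h2, if_neg (fun h => h2 ⟨h.2.1, h.1⟩)]
            norm_num
        · rw [if_pos (by omega : p < P)]
          have h3 := h.f0 p x
          have h4 := h.f1 p x
          rw [abs_le]
          split_ifs <;> constructor <;> linarith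
      have h2 : ∑ p ∈ range (n + 1), (if p < P then (1 : ℝ) else 0) ≤ P := by
        rw [Finset.sum_ite, Finset.sum_const_zero, add_zero, Finset.sum_const, nsmul_eq_mul, mul_one]
        have : ((range (n + 1)).filter (fun q => q < P)).card ≤ P := by
          calc _ ≤ (range P).card := Finset.card_le_card fun q hq => by
                  rw [mem_filter] at hq
                  exact mem_range.2 hq.2
            _ = P := Finset.card_range P
        exact_mod_cast this
      exact (Finset.abs_sum_le_sum_abs _ _).trans (h1.trans h2)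
  by_cases hdiv : Tendsto (VS S) atTop atTop
  · filter_upwards [hset, h.law S hdiv, h.inf S hdiv] with x hx hl hi
    obtain ⟨P, hP1, hP2⟩ := hx
    obtain ⟨B, hB, hBn⟩ := hl
    refine ⟨fun _ => ⟨B + P, by positivity, fun n hn => ?_⟩, fun _ => ?_, fun h1 => absurd hdiv h1⟩
    · have h1 := hBn n hn
      have h2 := hP2 n
      have h3 : 1 ≤ gr (VS S n * (1 + Real.log (Real.log n))) := by
        refine one_le_gr ?_
        have := loglog_nonneg hn
        have := VS_nonneg S n
        positivity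
      have h4 := abs_add_le ((cS S (s x) n : ℝ) - FS f S n x) (FS f S n x - c x * VS S n)
      have e : (cS S (s x) n : ℝ) - FS f S n x + (FS f S n x - c x * VS S n) =
        (cS S (s x) n : ℝ) - c x * VS S n := by ring
      rw [e] at h4
      have h5 : (P : ℝ) ≤ P * gr (VS S n * (1 + Real.log (Real.log n))) := by
        have : (0 : ℝ) ≤ P := Nat.cast_nonneg P
        nlinarith
      linarith
    · intro hfin
      refine hi ((hfin.union (Set.finite_lt_nat P)).subset fun p hp => ?_)
      by_cases h1 : P ≤ p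
      · exact Or.inl ((hP1 p h1).1 hp)
      · exact Or.inr (by show p < P; omega)
  · filter_upwards [hset, h.fin S hdiv] with x hx hi
    obtain ⟨P, hP1, _⟩ := hx
    refine ⟨fun h1 => absurd h1 hdiv, fun h1 => absurd h1 hdiv, fun _ => ?_⟩
    refine (hi.union (Set.finite_lt_nat P)).subset fun p hp => ?_
    by_cases h1 : P ≤ p
    · exact Or.inl ((hP1 p h1).2 hp)
    · exact Or.inr (by show p < P; omega)

end Pool.Agent.TH888.R
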