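import Mathlib
import Pool.Agent.TH888.R.Dich
import Pool.Agent.TH888.R.Mean
import Pool.Agent.W66.XC

set_option autoImplicit false

/-!
# Shift families are systems of nearly independent events
-/

namespace Pool.Agent.TH888.R

open Finset Filter Topology MeasureTheory
open Pool.Agent.W66X (far_sh mid_sh corr_le one_sh int_bdd)
open Pool.Agent.H447R2.ML (Sh)
open Pool.Agent.H305R2 (gg LL measurable_gg abs_gg_le_one LL_nonneg LL_cont
  LL_le_one ff measurable_ff ff_nonneg ff_le_one log_nat_tendsto)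

lemma ff01 (p : ℕ) (t : ℝ) : ff p t = 0 ∨ ff p t = 1 := by
  unfold ff
  split_ifs
  · exact Or.inr rfl
  · exact Or.inl rfl

/-- **A shift family is a system on every window.** -/
theorem sys_sh {a : ℝ} (ha : 0 < a) {y y' : ℕ → ℝ → ℝ} (hym : ∀ p, Measurable (y p))
    (hfam : ∀ a0 a1 : ℝ, a0 < a1 → ∀ᶠ p : ℕ in atTop, Sh a a0 a1 p (y p) (y' p))
    (hw : ∀ b0 : ℝ, ∃ P : ℕ, ∀ p ≥ P, ∀ q ≥ P, p ≤ q → ∃ w : ℝ → ℝ, Measurable w ∧
      MonotoneOn w (Set.Icc (a * q + b0 - 1) (a * q + b0 + 2)) ∧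
      (∀ s ∈ Set.Icc (a * q + b0 - 1) (a * q + b0 + 2), ∀ t ∈ Set.Icc (a * q + b0 - 1) (a * q + b0 + 2),
        |w s - w t| ≤ 2 * |s - t|) ∧ w (a * q + b0 + 2) ≤ a * p + |b0| + 3 ∧
      ∀ t ∈ Set.Ioc b0 (b0 + 1), w (y q t) = y p t)
    (hnear : ∀ b0 : ℝ, ∃ K : ℝ, 0 < K ∧ ∃ P : ℕ, ∀ p ≥ P, ∀ q : ℕ, p < q → q ≤ 2 * p →
      ∫ t in Set.Ioc b0 (b0 + 1), ff p (y p t) * ff q (y q t) ≤
        K * ((Real.log p / p) ^ 2 + ((2 : ℝ) ^ (q - p))⁻¹ * (Real.log p / p))) (b0 : ℝ) :
    Sys (volume.restrict (Set.Ioc b0 (b0 + 1))) (fun p t => ff p (y p t)) (fun p t => LL p (y p t))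
      (fun _ => Real.exp Real.eulerMascheroniConstant / a) := by
  obtain ⟨P0, hP0⟩ := eventually_atTop.1 (hfam (b0 - 1) (b0 + 2) (by linarith))
  obtain ⟨κ, K1, hκ, hK1, P1, h1⟩ := far_sh ha b0
  obtain ⟨K2, hK2, P2, h2⟩ := mid_sh ha b0
  obtain ⟨K3, hK3, P3, h3⟩ := hnear b0
  obtain ⟨K4, hK4, P4, hP43, h4⟩ := corr_le ha b0
  obtain ⟨K5, hK5, P5, hP53, h5⟩ := one_sh ha b0
  obtain ⟨P6, h6⟩ := hw b0
  obtain ⟨P7, h7⟩ := eventually_atTop.1 (log_nat_tendsto.eventually_ge_atTop κ)
  obtain ⟨K8, hK8, hev8⟩ := LL_rate ha (|b0| + 3)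
  obtain ⟨P8, h8⟩ := eventually_atTop.1 hev8
  have hmem : ∀ᵐ t ∂(volume.restrict (Set.Ioc b0 (b0 + 1))), t ∈ Set.Ioc b0 (b0 + 1) :=
    ae_restrict_mem measurableSet_Ioc
  refine ⟨fun q => (measurable_ff q).comp (hym q), fun q => (LL_cont q).measurable.comp (hym q),
    fun q t => ff01 q _, fun q t => LL_nonneg q _, fun q t => LL_le_one q _, ?_, ?_, ?_, ?_⟩
  · refine ⟨K8, hK8.le, P0 + P8, ?_⟩
    filter_upwards [hmem] with t ht q hq hqp
    have hq1 : 1 / (q : ℝ) ≤ 1 := by
      have : (2 : ℝ) ≤ q := by exact_mod_cast hqp.two_le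
      rw [div_le_one (by linarith)]
      linarith
    have e1 := abs_le.1 ((hP0 q (by omega)).near t ⟨by linarith [ht.1], by linarith [ht.2]⟩)
    have e2 : |y q t - a * q| ≤ |b0| + 3 := by
      have e3 := abs_le.1 (le_refl |b0|)
      rw [abs_le]
      constructor <;> linarith [e1.1, e1.2, ht.1, ht.2, e3.1, e3.2]
    have e3 := h8 q (by omega) (y q t) e2
    unfold wt
    rw [mul_one_div]
    exact e3
  · refine ⟨Real.exp Real.eulerMascheroniConstant / a, Real.exp Real.eulerMascheroniConstant / a,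
      by positivity, Eventually.of_forall fun t => ⟨le_rfl, le_rfl⟩⟩
  · set Q := P0 + P1 + P2 + P3 + P4 + P5 + P6 + P7 with hQ
    set J : ℕ → ℕ → ℝ := fun p q => if Q ≤ p then
      ∫ t in Set.Ioc b0 (b0 + 1), gg p (y p t) * gg q (y q t) else 0 with hJ
    have hw0 : ∀ m : ℕ, 0 ≤ Real.log m / m := fun m =>
      div_nonneg (Real.log_natCast_nonneg m) (Nat.cast_nonneg m)
    set K := K1 + K2 + (K3 + 2 * K4) with hK
    obtain ⟨C, hC, P', hP', hP3', hrow⟩ := row_set (κ := κ) (K := K) hκ (by positivity)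
      (b := 2) le_rfl J Q
      (by
        intro q hq p hp
        have hr : 0 ≤ Real.log q / (q : ℝ) ^ 2 := div_nonneg (Real.log_natCast_nonneg q) (by positivity)
        simp only [hJ]
        split_ifs with hpQ
        · have hlq := h7 q (by omega)
          have hq0 : (0 : ℝ) < q := by exact_mod_cast (by omega : 0 < q)
          have hpq : p ≤ q := by
            have hl : 0 < Real.log q := lt_of_lt_of_le hκ hlq
            have : (p : ℝ) ≤ q := by
              refine hp.trans ?_
              rw [div_le_iff₀ hl]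
              nlinarith
            exact_mod_cast this
          obtain ⟨w, w1, w2, w3, w4, w5⟩ := h6 p (by omega) q (by omega) hpq
          refine (h1 q (by omega) p (y q) (y' q) (y p) w (hP0 q (by omega)) w1 w2 w3 hp w4 w5).trans ?_
          exact mul_le_mul_of_nonneg_right (by rw [hK]; linarith) hr
        · rw [abs_zero]; positivity)
      (by
        intro p hp q hq
        simp only [hJ]
        rw [if_pos hp]
        refine (h2 p (by omega) q hq _ _ _ _ (hP0 p (by omega)) (hP0 q (by omega))).trans ?_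
        exact mul_le_mul_of_nonneg_right (by rw [hK]; linarith) (mul_nonneg (hw0 p) (hw0 q)))
      (by
        intro p hp q hq hq2
        simp only [hJ]
        rw [if_pos hp]
        have e1 := h4 p (by omega) q (by omega) _ _ _ _ (hP0 p (by omega)) (hP0 q (by omega))
        have e2 := h3 p (by omega) q hq hq2
        have hp2 : (2 : ℝ) ≤ p := by exact_mod_cast (by omega : 2 ≤ p)
        have hp0 : (0 : ℝ) < p := by linarith
        have hpq' : (p : ℝ) ≤ q := by exact_mod_cast hq.le
        have hwq : Real.log q / q ≤ 2 * (Real.log p / p) := by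
          have hq2' : (q : ℝ) ≤ p * p := by
            have : (q : ℝ) ≤ 2 * p := by exact_mod_cast hq2
            nlinarith
          have hlq : Real.log q ≤ 2 * Real.log p := by
            calc Real.log q ≤ Real.log (p * p) := Real.log_le_log (by linarith) hq2'
              _ = 2 * Real.log p := by rw [Real.log_mul hp0.ne' hp0.ne']; ring
          have hlp := Real.log_natCast_nonneg p
          calc Real.log q / q ≤ (2 * Real.log p) / p := div_le_div₀ (by positivity) hlq hp0 hpq'
            _ = _ := by ring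
        have hwp := hw0 p
        have e3 : K4 * ((Real.log p / p) * (Real.log q / q)) ≤ 2 * K4 * (Real.log p / p) ^ 2 := by
          calc K4 * ((Real.log p / p) * (Real.log q / q)) ≤
                K4 * ((Real.log p / p) * (2 * (Real.log p / p))) := by gcongr
            _ = _ := by ring
        have e4 : 0 ≤ ((2 : ℝ) ^ (q - p))⁻¹ * (Real.log p / p) := by positivity
        have e5 : 0 ≤ (Real.log p / p) ^ 2 := sq_nonneg _
        push_cast
        rw [hK]
        calc _ ≤ _ := e1
          _ ≤ K3 * ((Real.log p / p) ^ 2 + ((2 : ℝ) ^ (q - p))⁻¹ * (Real.log p / p)) +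
              2 * K4 * (Real.log p / p) ^ 2 := add_le_add e2 e3
          _ ≤ _ := by nlinarith [mul_nonneg hK1.le e5, mul_nonneg hK2.le e5, mul_nonneg hK1.le e4,
              mul_nonneg hK2.le e4, mul_nonneg hK4.le e4])
    refine ⟨κ, C + K5, hκ, by positivity, P', hP3', fun q hq _ => ?_, fun q hq _ T hT => ?_⟩
    · have e1 := (h5 q (by omega) _ _ (hP0 q (by omega))).2.2
      have e2 : ∫ t in Set.Ioc b0 (b0 + 1), (gg q (y q t)) ^ 2 ≤
          ∫ t in Set.Ioc b0 (b0 + 1), |gg q (y q t)| := by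
        have hmg : Measurable (fun t : ℝ => gg q (y q t)) := (measurable_gg q).comp (hym q)
        refine setIntegral_mono_on ?_ ?_ measurableSet_Ioc fun t _ => ?_
        · refine int_bdd (hmg.pow_const 2) (M := 1) (fun t => ?_) _ _
          rw [abs_pow]
          exact pow_le_one₀ (abs_nonneg _) (abs_gg_le_one _ _)
        · refine int_bdd hmg.abs (M := 1) (fun t => ?_) _ _
          rw [abs_abs]
          exact abs_gg_le_one _ _
        · have h1 := abs_gg_le_one q (y q t)
          have h2 := abs_nonneg (gg q (y q t))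
          rw [← sq_abs]
          nlinarith
      refine (e2.trans e1).trans ?_
      unfold wt
      exact mul_le_mul_of_nonneg_right (by linarith) (hw0 q)
    · have hsame : ∑ p ∈ T, |∫ t in Set.Ioc b0 (b0 + 1), gg p (y p t) * gg q (y q t)| =
          ∑ p ∈ T, |J p q| := by
        refine Finset.sum_congr rfl fun p hp => ?_
        have := (hT p hp).2.1
        simp only [hJ]
        rw [if_pos (hP'.trans this)]
      have e1 := hrow q hq T hT
      rw [← hsame] at e1
      refine e1.trans ?_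
      unfold wt
      refine mul_le_mul_of_nonneg_right (by linarith) ?_
      have : 0 ≤ ∑ p ∈ T.filter (fun p : ℕ => κ * q / Real.log q < (p : ℝ)), Real.log p / (p : ℝ) :=
        Finset.sum_nonneg fun p _ => hw0 p
      exact mul_nonneg (hw0 q) (by linarith)
  · refine ⟨K5, hK5.le, P0 + P5, fun q hq _ => ?_⟩
    exact (h5 q (by omega) _ _ (hP0 q (by omega))).2.1

/-- from windows to the line -/
lemma ae_windows {p : ℝ → Prop} (h : ∀ b0 : ℝ, ∀ᵐ t ∂(volume.restrict (Set.Ioc b0 (b0 + 1))), p t) :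
    ∀ᵐ t : ℝ, p t := by
  have h1 : ∀ j : ℤ, ∀ᵐ t : ℝ, t ∈ Set.Ioc (j : ℝ) (j + 1) → p t := fun j =>
    (ae_restrict_iff' measurableSet_Ioc).1 (h (j : ℝ))
  filter_upwards [ae_all_iff.2 h1] with t ht
  refine ht (⌈t⌉ - 1) ⟨?_, ?_⟩
  · push_cast
    linarith [Int.ceil_lt_add_one t]
  · push_cast
    linarith [Int.le_ceil t]

end Pool.Agent.TH888.R
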