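import Mathlib
import Pool.Agent.TH888.R.Sh
import Pool.Agent.TH888.R.Asy
import Pool.Agent.W66.XG

set_option autoImplicit false

/-!
# The law with error term for shift families
-/

namespace Pool.Agent.TH888.R

open Finset Filter Topology MeasureTheory Asymptotics
open Pool.Agent.H447R2.ML (Sh sh_of ff_eq_ceil ff_eq_floor)
open Pool.Agent.H305R2 (roughPart ff)
open Pool.Agent.W66X (ysh measurable_ysh trans_shift near_shift pert8 exp_ysh ae_of_exp')

variable {α κ C : ℝ} {g : ℕ → ℝ}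

/-- the near pair condition -/
def Near (α : ℝ) (g : ℕ → ℝ) : Prop := ∀ b0 : ℝ, ∃ K : ℝ, 0 < K ∧ ∃ P : ℕ, ∀ p ≥ P, ∀ q : ℕ, p < q →
  q ≤ 2 * p → ∫ t in Set.Ioc b0 (b0 + 1), ff p (ysh α g p t) * ff q (ysh α g q t) ≤
    K * ((Real.log p / p) ^ 2 + ((2 : ℝ) ^ (q - p))⁻¹ * (Real.log p / p))

lemma sys_ysh (hα : 1 < α) (hκ0 : 0 ≤ κ) (hκ : κ < α) (hg : ∀ p, |g p| ≤ C * κ ^ p)
    (hnear : Near α g) (b0 : ℝ) :
    Sys (volume.restrict (Set.Ioc b0 (b0 + 1))) (fun p t => ff p (ysh α g p t))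
      (fun p t => Pool.Agent.H305R2.LL p (ysh α g p t))
      (fun _ => Real.exp Real.eulerMascheroniConstant / Real.log α) :=
  sys_sh (Real.log_pos hα) (measurable_ysh α g)
    (fun a0 a1 _ => sh_of (by linarith) hκ0 hκ hg a0 a1)
    (fun b0 => trans_shift hα hκ0 hκ hg b0) hnear b0

/-- the integers `⌈β α ^ p + g p⌉ - 1` -/
theorem pt_ceil (hα : 1 < α) (hκ0 : 0 ≤ κ) (hκ : κ < α) (hg : ∀ p, |g p| ≤ C * κ ^ p)
    (hnear : Near α g) (S : Set ℕ) : ∀ᵐ β : ℝ, 0 < β →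
      Pt (fun p => ⌈β * α ^ p + g p⌉₊ - 1) (Real.exp Real.eulerMascheroniConstant / Real.log α) S := by
  have hα0 : 0 < α := by linarith
  refine ae_of_exp' (P := fun β : ℝ => Pt (fun p => ⌈β * α ^ p + g p⌉₊ - 1)
    (Real.exp Real.eulerMascheroniConstant / Real.log α) S) (ae_windows fun b0 => ?_)
  refine (sys_ysh hα hκ0 hκ hg hnear b0).pt (s := fun t p => ⌈Real.exp t * α ^ p + g p⌉₊ - 1)
    (Eventually.of_forall fun t => ?_) S
  obtain ⟨P, hP⟩ := eventually_atTop.1 (pert8 hα0 hκ0 hκ hg t 8)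
  exact ⟨P, fun p hp _ => ff_eq_ceil (exp_ysh hα0 (hP p hp) le_rfl).2.1⟩

/-- the integers `⌊β α ^ p + g p⌋` -/
theorem pt_floor (hα : 1 < α) (hκ0 : 0 ≤ κ) (hκ : κ < α) (hg : ∀ p, |g p| ≤ C * κ ^ p)
    (hnear : Near α g) (S : Set ℕ) : ∀ᵐ β : ℝ, 0 < β →
      Pt (fun p => ⌊β * α ^ p + g p⌋₊) (Real.exp Real.eulerMascheroniConstant / Real.log α) S := by
  have hα0 : 0 < α := by linarith
  have h2 : ∀ᵐ t : ℝ, ∀ p m : ℕ, Real.exp t * α ^ p + g p ≠ m := by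
    have hnull : volume (⋃ p : ℕ, ⋃ m : ℕ, {t : ℝ | Real.exp t * α ^ p + g p = m}) = 0 := by
      refine Set.Countable.measure_zero ?_ volume
      refine Set.countable_iUnion fun p => Set.countable_iUnion fun m => ?_
      refine Set.Subsingleton.countable ?_
      intro s hs t ht
      simp only [Set.mem_ofPred_eq] at hs ht
      have h3 : Real.exp s * α ^ p = Real.exp t * α ^ p := by linarith
      exact Real.exp_injective (mul_right_cancel₀ (pow_pos hα0 p).ne' h3)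
    have hae : ∀ᵐ t : ℝ, t ∉ ⋃ p : ℕ, ⋃ m : ℕ, {t : ℝ | Real.exp t * α ^ p + g p = m} := by
      rw [ae_iff]
      refine measure_mono_null (fun t ht => ?_) hnull
      simpa only [Set.mem_ofPred_eq, not_not] using ht
    filter_upwards [hae] with t ht p m hm
    refine ht ?_
    simp only [Set.mem_iUnion]
    exact ⟨p, m, hm⟩
  refine ae_of_exp' (P := fun β : ℝ => Pt (fun p => ⌊β * α ^ p + g p⌋₊)
    (Real.exp Real.eulerMascheroniConstant / Real.log α) S) (ae_windows fun b0 => ?_)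
  refine (sys_ysh hα hκ0 hκ hg hnear b0).pt (s := fun t p => ⌊Real.exp t * α ^ p + g p⌋₊) ?_ S
  filter_upwards [ae_restrict_of_ae h2] with t htn
  obtain ⟨P, hP⟩ := eventually_atTop.1 (pert8 hα0 hκ0 hκ hg t 8)
  exact ⟨P, fun p hp _ => ff_eq_floor (exp_ysh hα0 (hP p hp) le_rfl).2.1 (fun m => htn p m)⟩

/-- integer bases -/
lemma near_base {b : ℕ} (hb : 2 ≤ b) (hκ0 : 0 ≤ κ) (hκ : κ < b) (hg : ∀ p, |g p| ≤ C * κ ^ p) :
    Near b g := fun b0 => near_shift hb hκ0 hκ hg b0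

end Pool.Agent.TH888.R
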